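import Pool.Agent.H80.NTT.Fin
import Pool.Agent.H77.NV.S6
import Pool.Agent.H87.NV.Tail

/-!
# The family theorem `nv_t3`

The slope of the target is natural if both `c 1` and `c 2` are thin.
-/

set_option autoImplicit false

namespace Pool.NVX

theorem nv_t3_tail (m D M Q : ℕ) (hD : 1 ≤ D) : TailT m D M Q := by
  obtain ⟨C, C₁, hC₁, h⟩ := t3_tail m D M Q hD
  refine ⟨C, C₁, hC₁, ?_⟩
  intro J F c a w w₂ e h' n p q s x y Z lam₁ lam₂ D₂ g gN κ θ B₀ A B T N TH NH v X ν₀ al₁ al₂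
    h1 h2 h3 h4 h5 h6 h7 h8 h9 h10 h11 h12 h13 h14 h15 h16 h17 h18 h19 h20 h21 h22 h23 h24 h25
    h26 h27 h28 h29 h30 h31 h32 h33 h34 h35 h36
  exact h h2 h3 h4 h5 h1 h6 h7 h8 h9 h10 h11 h12 h13 h14 h15 h16 h17 h18 h30 h19 h20 h21 h22 h23
    h24 h25 h26 h27 h28 h29 h31 h32 h33 h34 h35 h36

/-- **The family theorem** for `c 0, c 1, c 2; c 3`, `c 1` and `c 2` thin. -/
theorem nv_t3 (m D M : ℕ) (hD : 1 ≤ D) : NvT3 m D M :=
  nv_t3_of m D M hD (s6_conj m D M) fun Q => nv_t3_tail m D M Q hD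

end Pool.NVX
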