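import Pool.Agent.H80.NV.Rl3a
import Pool.Agent.H87.NV.Wmx

/-!
# The statements of the last two parts of `nv_t3`

`S6T`, `TailT`.
-/

set_option autoImplicit false

namespace Pool.NVX

open Finset Real MvPolynomial
open Pool.Agent.H49.Ent Pool.Agent.H32.Dense Pool.STK Pool.KA Pool.KSAT Pool.K2S Pool.PB Pool.S6C
open Pool.GEN Pool.CHT
open Pool.D2R (dd hs dd_add dd_smul dd_congr)
open Pool.F5 (lp gp der_lp dd_gp deg_gp deg_lp eo bdS bdS_slam eval_lp eval_gp)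
open Pool.SHR (dir mvp RelvH Shr ShrY relvF_low lab_near slp_cmp)
open Pool.PB.Trl (rt rt_mem t_rt)
open Pool.FLF (Fam.sub)

/-- The statement of S6. -/
def S6T (m D M : ℕ) : Prop := ∃ (C : ℕ) (C₁ : ℝ), 1 ≤ C₁ ∧
    ∀ {J : ℕ} {F : Fam m J} {c : ℕ → Fin m}
    {a w w₂ e h h' n n' p q s x xX lam₁ lam₂ D' D₂ D₃ G : ℕ} {g gN g₄ : ℕ → ℕ} {κ θ : ℝ}
    {B₀ A B : F.Ω → Prop} {T T₄ : PtT F → ℕ → MvPolynomial (Option (Fin m)) ℝ}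
    {TH NH : LnT F → ℕ → MvPolynomial (Option (Fin m)) ℝ} {v : PtT F → Fin m → ℝ}
    {X : PtT F → Option (Fin m) → ℝ} {ν₀ : PtT F → F.Ω} {ξ : LnT F → Polynomial ℝ}
    {al₂ : PtT F → ℝ},
    Set.InjOn c (Set.Iio 3) → C ≤ D₂ → RelvF F c 2 a w₂ g D₂ h κ B₀ T →
    ChOK F c 2 (fun _ => D') a w₂ e g B₀ T TH →
    Rel3 F c a w e n p lam₁ lam₂ D₃ h' g gN g₄ A B T T₄ NH v X ν₀ → Sub B B₀ → 0 < Pe F.p B →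
    0 ≤ κ → κ * 2 ^ C * Pe F.p B₀ ≤ Pe F.p B →
    w + C * (n' + h + s + 1) ≤ w₂ → w₂ ≤ a → a + 1 ≤ J →
    (∀ (B' : F.Ω → Prop) (hB' : 0 < Pe F.p B'), Sub B' B → Pe F.p B ≤ 2 ^ C * Pe F.p B' →
      (Fam.sub F B' hB').Tm θ) → 0 ≤ θ → C₁ * (θ + 1) ≤ ((J : ℝ) - w) * Real.log 2 →
    C₁ * (θ + 1) ≤ s → g 1 + w * M ≤ gN 1 + w₂ * M →
    (∀ s', (NH s' 3).totalDegree ≤ D) → (∀ s', DepC c 3 (NH s' 3)) →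
    (∀ s', (ξ s').natDegree ≤ D) → (∀ y l, (T y l).totalDegree ≤ D) →
    (∀ y l, DepC c l (T y l)) → (∀ y, v y (c 1) = 1 ∧ v y (c 0) = 0) →
    (∀ ω, B ω → Shr F c 1 a g T v x 2 ω) →
    (∀ ω, B ω → |X (ptr F J ω) (some (c 1))| ≤ 2 ^ xX) → xX + g 1 + C * (n' + h + 1) ≤ J →
    C * (n' + h + 1) ≤ p →
    (∀ ω, B ω → ∀ b, NBx c (T (ptr F J ω)) g a (F.t ω) 1 b →
      |b (some (c 0)) - (F.x ω (c 0) + (b none - F.t ω) * bd F ω (some (c 0)))| ≤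
        2 ^ n' / 2 ^ g 0) →
    (∀ ω, B ω → ∀ b, NBx c (T (ptr F J ω)) g a (F.t ω) 2 b →
      |(b (some (c 1)) - (F.x ω (c 1) + (b none - F.t ω) * bd F ω (some (c 1)))) -
        X (ptr F J ω) (some (c 1)) *
          (b (some (c 0)) - (F.x ω (c 0) + (b none - F.t ω) * bd F ω (some (c 0))))| ≤
        2 ^ n' / 2 ^ g 1) →
    (∀ ω, B ω → ∀ t : ℝ, |t - F.t ω| ≤ 1 / 2 ^ a →
      |X (ptr F J ω) (some (c 1)) - (ξ (slam F w ω)).eval t| ≤ 2 ^ n' * (2 ^ g 0 / 2 ^ gN 1)) →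
    (∀ ω, B ω → ∀ b, NBx c (T (ptr F J ω)) g a (F.t ω) 3 b →
      |eval b (dir (ek (c 2)) (NH (slam F w ω) 3)) - al₂ (ptr F J ω)| ≤
        2 ^ x * (2 ^ lam₂ / 2 ^ gN 3)) →
    (∀ ω, B ω → ∀ t : ℝ, |t - F.t ω| ≤ 1 / 2 ^ a →
      |(hcl (c 2) (NH (slam F w ω) 3) (slam F w ω)).eval t| ≤ 2 ^ (a + lam₂) / 2 ^ gN 3) →
    (∀ ω, B ω → 2 ^ (a + lam₂) / 2 ^ gN 3 / 2 ^ x ≤
      |(hcl (c 2) (NH (slam F w ω) 3) (slam F w ω)).eval (F.t ω)|) →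
    (∀ ω, B ω → |(hcl (c 1) (NH (slam F w ω) 3) (slam F w ω)).eval (F.t ω) +
      v (ptr F J ω) (c 2) * (hcl (c 2) (NH (slam F w ω) 3) (slam F w ω)).eval (F.t ω)| ≤
      2 ^ (q + a + lam₂) / 2 ^ gN 3 * (2 ^ g 1 / 2 ^ g 2)) →
    g 2 ≤ lam₂ → lam₁ + g 2 ≤ lam₂ + g 1 + q → q ≤ p → gN 1 ≤ g 1 + s →
    C * (w₂ + n' + h + s + 1) ≤ G + C * w →
    ∃ B' : F.Ω → Prop, Sub B' B ∧ Pe F.p B / 2 ≤ Pe F.p B' ∧ ∀ ω, B' ω →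
      |(hcl (c 2) (NH (slam F w ω) 3) (slam F w ω)).eval (F.t ω) *
          hs (NH (slam F w ω) 3) (bt F ω) (X (ptr F J ω)) (eo (some (c 1))) -
        (hcl (c 1) (NH (slam F w ω) 3) (slam F w ω)).eval (F.t ω) *
          hs (NH (slam F w ω) 3) (bt F ω) (X (ptr F J ω)) (eo (some (c 2)))| ≤
        2 ^ (G + q + C * (n + n' + x + h + s + 1)) * (2 ^ (a + lam₂) / 2 ^ gN 3) *
          (2 ^ (g 0 + g 1) / 2 ^ gN 3) *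
          (1 + 2 ^ lam₁ / 2 ^ (g 1 + p) + 2 ^ lam₂ / 2 ^ (g 2 + p))

/-- The statement of the tail. -/
def TailT (m D M Q : ℕ) : Prop := ∃ (C : ℕ) (C₁ : ℝ), 1 ≤ C₁ ∧
    ∀ {J : ℕ} {F : Fam m J} {c : ℕ → Fin m}
    {a w w₂ e h n p q s x y Z lam₁ lam₂ D₂ : ℕ} {g gN : ℕ → ℕ} {κ θ : ℝ}
    {B₀ A B : F.Ω → Prop} {T N : PtT F → ℕ → MvPolynomial (Option (Fin m)) ℝ}
    {TH NH : LnT F → ℕ → MvPolynomial (Option (Fin m)) ℝ} {v : PtT F → Fin m → ℝ}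
    {X : PtT F → Option (Fin m) → ℝ} {ν₀ : PtT F → F.Ω} {al₁ al₂ : PtT F → ℝ},
    Rel3 F c a w e n p lam₁ lam₂ D h g gN g A B T T NH v X ν₀ → Set.InjOn c (Set.Iio 3) →
    C ≤ D₂ → RelvF F c 3 a w₂ g D₂ h κ B₀ T →
    ChOK F c 3 (fun _ => D) a w₂ e g B₀ T TH → Sub A B₀ → Sub B A → 0 < Pe F.p B →
    0 ≤ κ → κ * 2 ^ C * Pe F.p B₀ ≤ Pe F.p B →
    w₂ = w + y → w₂ ≤ a → a + 1 ≤ J →
    (∀ (B' : F.Ω → Prop) (hB' : 0 < Pe F.p B'), Sub B' B → Pe F.p B ≤ 2 ^ C * Pe F.p B' →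
      (Fam.sub F B' hB').Tm θ) → 0 ≤ θ → C₁ * (θ + 1) ≤ ((J : ℝ) - w) * Real.log 2 →
    C₁ * (θ + 1) ≤ s → g 1 ≤ gN 1 + M * y →
    (∀ s' l, (NH s' l).totalDegree ≤ D) → (∀ s', DepC c 3 (NH s' 3)) →
    (∀ y, v y (c 1) = 1 ∧ v y (c 0) = 0) → (∀ ω, A ω → Shr F c 1 a g T v x 2 ω) →
    (∀ ω, A ω → ∀ b, NBx c (T (ptr F J ω)) g a (F.t ω) 2 b →
      |eval b (pderiv (some (c 1)) (T (ptr F J ω) 2)) - v (ptr F J ω) (c 2)| ≤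
        2 ^ x * 2 ^ g 1 / 2 ^ g 2) →
    (∀ ω, A ω → ∀ b, NBx c (T (ptr F J ω)) g a (F.t ω) 3 b →
      |eval b (dir (v (ptr F J ω)) (NH (slam F w ω) 3)) - al₁ (ptr F J ω)| ≤
        2 ^ (x + q) * (2 ^ (g 1 + lam₂) / 2 ^ (g 2 + gN 3)) ∧
      |eval b (dir (ek (c 2)) (NH (slam F w ω) 3)) - al₂ (ptr F J ω)| ≤
        2 ^ (x + q) * (2 ^ lam₂ / 2 ^ gN 3) ∧
      |eval b (N (ptr F J ω) 3) - eval b (NH (slam F w ω) 3)| ≤ 2 ^ x / 2 ^ gN 3) →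
    (∀ ω, B ω → ∀ t : ℝ, |t - F.t ω| ≤ 1 / 2 ^ a → |X (ptr F J ω) (some (c 1)) -
      eval (bt F ω + (t - F.t ω) • bd F ω) (pderiv (some (c 0)) (NH (slam F w ω) 1))| ≤
        2 ^ x * (2 ^ g 0 / 2 ^ gN 1)) →
    (∀ ω, B ω → ∀ t : ℝ, F.t ω - rt F w ω / 2 ^ w ≤ t →
      t ≤ F.t ω + (1 - rt F w ω) / 2 ^ w →
      |(hcl (c 2) (NH (slam F w ω) 3) (slam F w ω)).eval t| ≤ 2 ^ (a + lam₂) / 2 ^ gN 3) →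
    (∀ ω, B ω → 2 ^ (a + lam₂) / 2 ^ gN 3 / 2 ^ x ≤
      |(hcl (c 2) (NH (slam F w ω) 3) (slam F w ω)).eval (F.t ω)|) →
    (∀ ω, B ω → |(hcl (c 1) (NH (slam F w ω) 3) (slam F w ω)).eval (F.t ω) +
      v (ptr F J ω) (c 2) * (hcl (c 2) (NH (slam F w ω) 3) (slam F w ω)).eval (F.t ω)| ≤
      2 ^ (q + a + lam₂) / 2 ^ gN 3 * (2 ^ g 1 / 2 ^ g 2)) →
    lam₁ + g 2 ≤ lam₂ + g 1 + q → gN 1 ≤ g 1 + s →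
    (∀ ω, B ω → |(hcl (c 2) (NH (slam F w ω) 3) (slam F w ω)).eval (F.t ω) *
        hs (NH (slam F w ω) 3) (bt F ω) (X (ptr F J ω)) (eo (some (c 1))) -
      (hcl (c 1) (NH (slam F w ω) 3) (slam F w ω)).eval (F.t ω) *
        hs (NH (slam F w ω) 3) (bt F ω) (X (ptr F J ω)) (eo (some (c 2)))| ≤
      2 ^ Z * (2 ^ (a + lam₂) / 2 ^ gN 3) * (2 ^ (g 0 + g 1) / 2 ^ gN 3) *
        (1 + 2 ^ lam₁ / 2 ^ (g 1 + p) + 2 ^ lam₂ / 2 ^ (g 2 + p))) →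
    C * (n + x + h + s + 1) ≤ y → q ≤ Q * y →
    g 2 + C * (q + Z + y + (n + x + h + s + 1)) ≤ lam₂ →
    C * (q + Z + y + (n + x + h + s + 1)) ≤ p →
    (∀ l < 3, e + g l + C * (q + Z + y + (n + x + h + s + 1)) ≤ J) → False

end Pool.NVX
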