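import Pool.Agent.H80.NV.Flat2
import Pool.Agent.H80.NV.Rl3w
import Pool.Agent.H77.NV.Tt

/-!
# Agreement of the labels on the boxes of a finer node, and the slope of the closed label

`nagr`, `nt_slope`: for the assembly of `nv_t3`.
-/

set_option autoImplicit false

namespace Pool.NVX

open Finset Real MvPolynomial
open Pool.Agent.H49.Ent Pool.Agent.H32.Dense Pool.STK Pool.KA Pool.KSAT Pool.K2S Pool.PB Pool.S6C
open Pool.GEN Pool.CHT
open Pool.D2R (dd hs dd_add dd_smul dd_congr)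
open Pool.F5 (lp gp der_lp dd_gp deg_gp deg_lp eo bdS bdS_slam eval_lp eval_gp)
open Pool.SHR (dir mvp RelvH Shr ShrY relvF_low lab_near slp_cmp)
open Pool.PB.Trl (rt rt_mem t_rt)
open Pool.FLF (Fam.sub)

variable {m J : ℕ}

/-- The agreement of a label on the boxes of a finer node. -/
theorem nagr (D : ℕ) : ∃ C : ℕ, ∀ {m J : ℕ} {F : Fam m J} {c : ℕ → Fin m}
    {a w E q s i : ℕ} {g gN : ℕ → ℕ} {B : F.Ω → Prop}
    {N T : PtT F → ℕ → MvPolynomial (Option (Fin m)) ℝ}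
    {NH : LnT F → ℕ → MvPolynomial (Option (Fin m)) ℝ} {ω : F.Ω}, i < 4 →
    Set.InjOn c (Set.Iio i) → ChOK F c 4 (fun _ => D) a w E gN B N NH →
    (∀ y l, DepC c l (T y l)) → B ω → (∀ l < i, gN l ≤ g l + s) →
    (∀ l < i, ∀ b, NBx c (T (ptr F J ω)) g a (F.t ω) l b →
      |eval b (T (ptr F J ω) l) - eval b (N (ptr F J ω) l)| ≤ 2 ^ q / 2 ^ gN l) →
    ∀ b, NBx c (T (ptr F J ω)) g a (F.t ω) i b →
      |eval b (N (ptr F J ω) i) - eval b (NH (slam F w ω) i)| ≤
        2 ^ (C * (q + s + 1)) / 2 ^ gN i := by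
  obtain ⟨c₀, D₁, -, hdil⟩ := nbx_dil 4 (fun _ => D)
  refine ⟨c₀ + 2 * D₁, ?_⟩
  intro m J F c a w E q s i g gN B N T NH ω hi hc hN hTp hω hgx hnr b hb
  have pw : ∀ {x y : ℕ}, x ≤ y → (2 : ℝ) ^ x ≤ 2 ^ y := fun h => pow_le_pow_right₀ (by norm_num) h
  have h1 := hdil (c := c) (i := i) (G := N (ptr F J ω))
    (Q := N (ptr F J ω) i - NH (slam F w ω) i) (g := gN) (a := a) (t := F.t ω)
    (M := 1 / 2 ^ gN i) (q + s + 1) hi hc (hN.degG _) (hN.depG _)
    (fun b b' hn hb' => by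
      rw [map_sub, map_sub, hN.depG _ i b b' hn hb', hN.depH _ i b b' hn hb'])
    ((totalDegree_sub _ _).trans (max_le (hN.degG _ i) (hN.degH _ i))) (by positivity)
    (fun b hb' => by
      rw [map_sub]
      exact hN.agr ω hω i hi b hb') b hb.1 (fun l hl => by
      have h2 := hb.2 l hl
      have h3 := hnr l hl b (hb.mono le_rfl hl.le)
      have e1 : b (some (c l)) - eval b (N (ptr F J ω) l) =
          (b (some (c l)) - eval b (T (ptr F J ω) l)) +
          (eval b (T (ptr F J ω) l) - eval b (N (ptr F J ω) l)) := by ring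
      rw [e1]
      refine (abs_add_le _ _).trans ((add_le_add h2 h3).trans ?_)
      have h4 : (1 : ℝ) / 2 ^ g l ≤ 2 ^ s / 2 ^ gN l := by
        rw [div_le_div_iff₀ (by positivity) (by positivity), one_mul, ← pow_add]
        exact pw (by have := hgx l hl; omega)
      refine (add_le_add h4 le_rfl).trans ?_
      rw [← add_div]
      refine div_le_div_of_nonneg_right ?_ (by positivity)
      rw [pow_succ, pow_add]
      have h5 : (1 : ℝ) ≤ 2 ^ q := one_le_pow₀ (by norm_num)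
      have h6 : (1 : ℝ) ≤ 2 ^ s := one_le_pow₀ (by norm_num)
      nlinarith)
  rw [map_sub] at h1
  refine h1.trans ?_
  rw [mul_one_div]
  refine div_le_div_of_nonneg_right (pw ?_) (by positivity)
  have e1 : (c₀ + 2 * D₁) * (q + s + 1) = c₀ * (q + s + 1) + 2 * (D₁ * (q + s + 1)) := by ring
  have e2 : (q + s + 1) * D₁ = D₁ * (q + s + 1) := Nat.mul_comm _ _
  have e3 : c₀ ≤ c₀ * (q + s + 1) := Nat.le_mul_of_pos_right _ (by omega)
  omega

/-- **The slope of a closed label of `c 2`** along the own line. -/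
theorem nt_slope (D : ℕ) : ∃ C : ℕ, ∀ {m J : ℕ} {F : Fam m J} {c : ℕ → Fin m}
    {a n k p : ℕ} {g : ℕ → ℕ} {B : F.Ω → Prop}
    {T : PtT F → ℕ → MvPolynomial (Option (Fin m)) ℝ}
    {P : MvPolynomial (Option (Fin m)) ℝ} {v : PtT F → Fin m → ℝ} {ω : F.Ω},
    Set.InjOn c (Set.Iio 2) → a + 1 ≤ J → (∀ y l, (T y l).totalDegree ≤ D) →
    (∀ y l, DepC c l (T y l)) → Pth F c 2 a n g B T → B ω → DepC c 2 P → P.totalDegree ≤ D →
    v (ptr F J ω) (c 0) = 0 → v (ptr F J ω) (c 1) = 1 →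
    (∀ b, NBx c (T (ptr F J ω)) g a (F.t ω) 2 b →
      |eval b (T (ptr F J ω) 2) - eval b P| ≤ 2 ^ k / 2 ^ p) →
    (∀ b, NBx c (T (ptr F J ω)) g a (F.t ω) 2 b →
      |eval b (pderiv (some (c 1)) (T (ptr F J ω) 2)) - v (ptr F J ω) (c 2)| ≤
        2 ^ (k + g 1) / 2 ^ p) → ∀ t : ℝ, |t - F.t ω| ≤ 1 / 2 ^ a →
      |v (ptr F J ω) (c 2) - eval (bt F ω + (t - F.t ω) • bd F ω) (pderiv (some (c 1)) P)| ≤
        2 ^ (C * (n + k + 1) + g 1) / 2 ^ p := by
  obtain ⟨cK, hcmp⟩ := slp_cmp D 3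
  obtain ⟨cO, hown⟩ := own_dil D 3
  have pw : ∀ {x y : ℕ}, x ≤ y → (2 : ℝ) ^ x ≤ 2 ^ y := fun h => pow_le_pow_right₀ (by norm_num) h
  refine ⟨cK + cO + 2, ?_⟩
  intro m J F c a n k p g B T P v ω hc haJ hTd hTp hpth hω hPp hPd hv0 hv1 hbd hsl t ht
  obtain ⟨T₀, hT₀⟩ : ∃ T, T = n + k + 1 := ⟨_, rfl⟩
  have hT1 : 1 ≤ T₀ := by omega
  have hbox : ∀ b, NBx c (T (ptr F J ω)) g a (F.t ω) 2 b →
      |eval b (pderiv (some (c 1)) P) - v (ptr F J ω) (c 2)| ≤
        2 ^ (cK * (k + 1) + k + 1 + g 1) / 2 ^ p := by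
    intro b hb
    have h2 := hcmp (l := 1) (i := 2) (a := a) (k := k) (y := 0) (p := p) (g := g) (G := T)
      (v := v) (P := T (ptr F J ω) 2 - P) (ω := ω) (by norm_num) hc hTd
      hTp (fun b b' hn hb => by
        rw [map_sub, map_sub, hTp _ 2 b b' hn hb, hPp b b' hn hb])
      ((totalDegree_sub _ _).trans (max_le (hTd _ 2) hPd)) hv1
      (fun j hj => by
        have : j = 0 := by omega
        subst this
        exact hv0) (fun j hj hlj => by omega) hb (fun b hb => by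
        rw [map_sub]
        exact hbd b hb)
    rw [dir_dd, dd_sub_left, ← dir_dd, ← dir_dd, dir_two hc hPp hv0 hv1,
      dir_two hc (hTp _ 2) hv0 hv1] at h2
    have e1 : eval b (pderiv (some (c 1)) P) - v (ptr F J ω) (c 2) =
        (eval b (pderiv (some (c 1)) (T (ptr F J ω) 2)) - v (ptr F J ω) (c 2)) -
        (eval b (pderiv (some (c 1)) (T (ptr F J ω) 2)) - eval b (pderiv (some (c 1)) P)) := by ring
    rw [e1]
    refine (abs_sub _ _).trans ((add_le_add (hsl b hb) h2).trans ?_)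
    rw [← add_div, ← pow_add]
    refine div_le_div_of_nonneg_right ?_ (by positivity)
    have e2 : (2 : ℝ) ^ (cK * (k + 1) + k + 1 + g 1) =
        2 ^ (cK * (k + 1) + k + g 1) + 2 ^ (cK * (k + 1) + k + g 1) := by
      rw [show cK * (k + 1) + k + 1 + g 1 = (cK * (k + 1) + k + g 1) + 1 by omega, pow_succ]
      ring
    rw [e2]
    refine add_le_add (pw (by omega)) (pw ?_)
    have : cK * (k + 0 + 1) = cK * (k + 1) := by rw [Nat.add_zero]
    omega
  obtain ⟨Q, hQ⟩ : ∃ Q, Q = pderiv (some (c 1)) P -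
      MvPolynomial.C (v (ptr F J ω) (c 2)) := ⟨_, rfl⟩
  have h3 := hown (i := 2) (n := n) (Q := Q)
    (M := 2 ^ (cK * (k + 1) + k + 1 + g 1) / 2 ^ p) (by norm_num) haJ hc hTd hTp hpth hω
    (by
      rw [hQ]
      intro b b' hn hb
      rw [map_sub, map_sub, eval_C, eval_C]
      rw [DepC.pderiv hPp 1 b b' hn hb])
    (by
      rw [hQ]
      refine (totalDegree_sub _ _).trans (max_le (deg_pd (c 1) hPd) ?_)
      rw [totalDegree_C]
      exact Nat.zero_le _) (by positivity) (fun b hb => by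
      rw [hQ, map_sub, eval_C]
      exact hbox b hb) t ht
  rw [hQ, map_sub, eval_C, abs_sub_comm] at h3
  refine h3.trans ?_
  rw [← mul_div_assoc, ← pow_add]
  refine div_le_div_of_nonneg_right (pw ?_) (by positivity)
  rw [← hT₀]
  have m1 : cO * (n + 1) ≤ cO * T₀ := Nat.mul_le_mul_left _ (by omega)
  have m2 : cK * (k + 1) ≤ cK * T₀ := Nat.mul_le_mul_left _ (by omega)
  have m3 : (cK + cO + 2) * T₀ = cK * T₀ + cO * T₀ + 2 * T₀ := by ring
  omega

end Pool.NVX
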