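import Pool.Agent.H80.NTT.Mid
import Pool.Agent.H80.NTT.St
import Pool.Agent.H82.NVT.Lit

/-!
# The assembly of `nv_t3`

`nv_t3_of`.
-/

set_option autoImplicit false

namespace Pool.NVX

open Finset Real MvPolynomial
open Pool.Agent.H49.Ent Pool.Agent.H32.Dense Pool.STK Pool.KA Pool.KSAT Pool.K2S Pool.PB Pool.S6C
open Pool.GEN Pool.CHT
open Pool.D2R (dd hs dd_add dd_smul dd_congr)
open Pool.F5 (lp gp der_lp dd_gp deg_gp deg_lp eo bdS bdS_slam eval_lp eval_gp)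
open Pool.SHR (dir mvp RelvH Shr ShrY relvF_low lab_near slp_cmp)
open Pool.PB.Trl (rt rt_mem t_rt)
open Pool.FLF (Fam.sub)

variable {m J : ℕ}

/-- **The family theorem** for `c 0, c 1, c 2; c 3`, `c 1` and `c 2` thin, from S6 and the tail. -/
theorem nv_t3_of (m D M : ℕ) (hD : 1 ≤ D) (hS6 : S6T m D M) (hTail : ∀ Q, TailT m D M Q) :
    NvT3 m D M := by
  obtain ⟨cM, r₁, hr₁, hmid⟩ := nt_mid m D M hD
  obtain ⟨cS, r₂, hr₂, hs6⟩ := hS6
  obtain ⟨cT, r₃, hr₃, htail⟩ := hTail cM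
  have pw : ∀ {x y : ℕ}, x ≤ y → (2 : ℝ) ^ x ≤ 2 ^ y := fun h => pow_le_pow_right₀ (by norm_num) h
  -- the constants
  obtain ⟨k₁, hk₁⟩ : ∃ k, k = 4 * cM + 8 := ⟨_, rfl⟩
  obtain ⟨kZ, hkZ⟩ : ∃ k, k = 4 * cS + 2 * cM + 4 := ⟨_, rfl⟩
  obtain ⟨C, hC⟩ : ∃ C, C = 2 * (cM + cT * kZ + cS + cT + 1) + cM + cS * k₁ + cT * k₁ + 2 * k₁ + M +
    cT * kZ + 2 * D + 20 := ⟨_, rfl⟩
  refine ⟨C, r₁ + r₂ + r₃, by linarith, ?_⟩
  intro J F c a w w₂ a₂ a₃ e E h s y lam₁ lam₂ D₂ gN g g₂ g₃ Y κ θ B₀ B N T T₂ T₃ NH TH T₂H T₃H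
    v v' hc hw₂ hw2a ha2 ha3 ha3J hDC hPB hB hN hT hRH hT2 hR2 hT3 hκ0 hκP hκ1 hTm hθ hθJ hθs
    hhs hgx hgM hYJ hrN hrg hr2 hr3 hgN3 hCy hvv hv hshr hslb hslo hup2 hlo2 hup1 hlo1 hlam n1 n2
    n3
  have haJ1 : a + 1 ≤ J := by omega
  have haJ : a ≤ J := by omega
  have hww : w ≤ w₂ := by omega
  have hcc3 : Set.InjOn c (Set.Iio 3) := hc.mono (Set.Iio_subset_Iio (by norm_num))
  obtain ⟨T₀, hT₀⟩ : ∃ T₀, T₀ = s + 1 := ⟨_, rfl⟩
  have hT1 : 1 ≤ T₀ := by omega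
  have hCT : C * T₀ ≤ y := by rw [hT₀]; exact hCy
  have hC1 : 1 ≤ C := by omega
  have hTy : T₀ ≤ y := le_trans (Nat.le_mul_of_pos_left _ hC1) hCT
  have hy1 : 1 ≤ y := hT1.trans hTy
  have cy : ∀ x : ℕ, x ≤ C → x * T₀ ≤ y := fun x hx => (Nat.mul_le_mul_right _ hx).trans hCT
  have cC : ∀ x : ℕ, x ≤ C → x * y ≤ C * y := fun x hx => Nat.mul_le_mul_right _ hx
  -- the parts
  have part : ∀ (k j : ℕ) (A : F.Ω → Prop), Sub A B → Pe F.p B / 2 ^ k ≤ Pe F.p A → k + j ≤ C →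
      0 < Pe F.p A ∧ κ * 2 ^ j * Pe F.p B₀ ≤ Pe F.p A ∧
      ∀ (B' : F.Ω → Prop) (hB' : 0 < Pe F.p B'), Sub B' A → Pe F.p A ≤ 2 ^ j * Pe F.p B' →
        (Fam.sub F B' hB').Tm θ := by
    intro k j A hA h1 hkj
    have h2k : (0 : ℝ) < 2 ^ k := by positivity
    have h2 : Pe F.p B ≤ 2 ^ k * Pe F.p A := by
      rw [div_le_iff₀ h2k] at h1
      linarith
    refine ⟨(div_pos hPB h2k).trans_le h1, ?_, ?_⟩
    · refine le_trans ?_ h1
      rw [le_div_iff₀ h2k]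
      refine le_trans ?_ hκP
      have e1 : κ * 2 ^ j * Pe F.p B₀ * 2 ^ k = κ * 2 ^ (k + j) * Pe F.p B₀ := by
        rw [pow_add]
        ring
      rw [e1]
      exact mul_le_mul_of_nonneg_right (mul_le_mul_of_nonneg_left (pw hkj) hκ0)
        (Pe_nonneg F.isLaw B₀)
    · intro B' hB' hs h3
      refine hTm B' hB' (fun ω h => hA ω (hs ω h)) ?_
      calc Pe F.p B ≤ 2 ^ k * Pe F.p A := h2
        _ ≤ 2 ^ k * (2 ^ j * Pe F.p B') := mul_le_mul_of_nonneg_left h3 h2k.le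
        _ = 2 ^ (k + j) * Pe F.p B' := by rw [pow_add]; ring
        _ ≤ 2 ^ C * Pe F.p B' := mul_le_mul_of_nonneg_right (pw hkj) (Pe_nonneg F.isLaw B')
  have hfr : ∀ (k j : ℕ) (A A' : F.Ω → Prop), Pe F.p B / 2 ^ k ≤ Pe F.p A →
      Pe F.p A / 2 ^ j ≤ Pe F.p A' → Pe F.p B / 2 ^ (k + j) ≤ Pe F.p A' := by
    intro k j A A' h1 h2
    refine le_trans ?_ h2
    rw [pow_add, ← div_div]
    exact div_le_div_of_nonneg_right h1 (by positivity)
  have hr0 : 0 ≤ θ + 1 := by linarith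
  have rle : ∀ r : ℝ, 0 ≤ r → r ≤ r₁ + r₂ + r₃ → r * (θ + 1) ≤ (r₁ + r₂ + r₃) * (θ + 1) :=
    fun r _ hr => mul_le_mul_of_nonneg_right hr hr0
  have hlog : 0 ≤ Real.log 2 := Real.log_nonneg (by norm_num)
  have hJw : ((J : ℝ) - a₃) * Real.log 2 ≤ ((J : ℝ) - w) * Real.log 2 := by
    refine mul_le_mul_of_nonneg_right ?_ hlog
    have : (w : ℝ) ≤ a₃ := by exact_mod_cast (hww.trans hw2a).trans (ha2.trans ha3)
    linarith
  -- the middle
  obtain ⟨Cp, hCp⟩ : ∃ x, x = cM + cT * kZ + cS + cT + 1 := ⟨_, rfl⟩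
  obtain ⟨p, hp⟩ : ∃ p, p = Cp * y := ⟨_, rfl⟩
  have hcMp : cM * y ≤ p := by rw [hp]; exact Nat.mul_le_mul_right _ (by omega)
  have hlamy : gN 2 + C * y ≤ lam₂ := hlam
  have cMy := cC cM (by omega)
  obtain ⟨-, q0, t0⟩ := part 0 cM B (fun ω h => h) (by rw [pow_zero, div_one]) (by omega)
  have hpM : p + cM * y ≤ C * y := by
    rw [hp, ← Nat.add_mul]
    exact cC _ (by omega)
  obtain ⟨A, B₂, X, ν₀, al₁, al₂, L₁, L₂, n, q, sA, b2, p2, hn, hsn, hq, hlL, hL, hR3, hpr, f1, x1,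
    x2⟩ := hmid (D₂ := D₂) (p := p) (w₂ := w₂) (v := v) (v' := v') hc hw₂ hw2a ha2 ha3 ha3J
    (by omega) hPB hB hN hT hRH hT2 hR2 hT3 hκ0 q0
    ((mul_le_mul_of_nonneg_left (pw (by omega)) hκ0).trans hκ1) t0 hθ
    ((rle r₁ (by linarith) (by linarith)).trans hθJ)
    ((rle r₁ (by linarith) (by linarith)).trans hθs) hhs hgx hgM hYJ
    (fun l hl => by have := hrN l hl; omega) (fun l hl => by have := hrg l hl; omega)
    (fun l hl => by have := hr2 l hl; omega) (fun l hl => by have := hr3 l hl; omega)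
    (by omega) ((Nat.mul_le_mul_right _ (by omega)).trans hCy) hvv
    (fun ω _ => ⟨(hv _).2.1, (hv _).1⟩) hshr hup2 hlo2 hup1 hlo1 (by omega) (by omega) (by omega)
    (by omega) (by omega)
  have sB2 : Sub B₂ B := fun ω h => sA ω (b2 ω h)
  rw [← hT₀] at hn
  -- the numbers
  have hcM4 : k₁ * T₀ = 4 * (cM * T₀) + 8 * T₀ := by rw [hk₁]; ring
  obtain ⟨x, hx⟩ : ∃ x, x = n + 2 := ⟨_, rfl⟩
  have hnum : n + n + x + h + s + 1 ≤ k₁ * T₀ := by omega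
  have hk1y := cy k₁ (by omega)
  have hS1y := cy (cS * k₁) (by omega)
  have hT1y := cy (cT * k₁) (by omega)
  have hSn : cS * (n + n + x + h + s + 1) ≤ y := by
    refine le_trans ?_ hS1y
    rw [Nat.mul_assoc]
    exact Nat.mul_le_mul_left _ hnum
  have hTn : cT * (n + x + h + s + 1) ≤ y := by
    refine le_trans ?_ hT1y
    rw [Nat.mul_assoc]
    exact Nat.mul_le_mul_left _ (by omega)
  obtain ⟨G, hG⟩ : ∃ G, G = cS * (y + n + h + s + 1) := ⟨_, rfl⟩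
  have hGy : G ≤ 2 * (cS * y) := by
    have : cS * (y + n + h + s + 1) ≤ cS * (2 * y) := Nat.mul_le_mul_left _ (by omega)
    have e1 : cS * (2 * y) = 2 * (cS * y) := by ring
    omega
  obtain ⟨Z, hZ⟩ : ∃ Z, Z = G + q + cS * (n + n + x + h + s + 1) := ⟨_, rfl⟩
  have hZy : q + Z + y + (n + x + h + s + 1) ≤ kZ * y := by
    have e1 : kZ * y = 4 * (cS * y) + 2 * (cM * y) + 4 * y := by rw [hkZ]; ring
    omega
  have hTZ : cT * (q + Z + y + (n + x + h + s + 1)) ≤ cT * kZ * y := by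
    rw [Nat.mul_assoc]
    exact Nat.mul_le_mul_left _ hZy
  have hTZC := cC (cT * kZ) (by omega)
  have hTZp : cT * kZ * y ≤ p := by rw [hp]; exact Nat.mul_le_mul_right _ (by omega)
  have hMZ : M * y + cT * kZ * y ≤ C * y := by
    rw [← Nat.add_mul]
    exact cC _ (by omega)
  have hyp : y ≤ p := by
    rw [hp]
    exact Nat.le_mul_of_pos_left _ (by omega)
  have hg2L : g 2 + cT * kZ * y ≤ L₂ := by
    have := hgM 2 (by norm_num)
    omega
  have hSy := cC cS (by omega)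
  -- the sizes
  have hPv : ∀ ω, B₂ ω → |(hcl (c 1) (NH (slam F w ω) 3) (slam F w ω)).eval (F.t ω) +
      v (ptr F J ω) (c 2) * (hcl (c 2) (NH (slam F w ω) 3) (slam F w ω)).eval (F.t ω)| ≤
      2 ^ (q + a + L₂) / 2 ^ gN 3 * (2 ^ g 1 / 2 ^ g 2) := by
    intro ω hω
    refine (hpr.u1 ω (b2 ω hω) (F.t ω) (by rw [sub_self, abs_zero]; positivity)).trans ?_
    rw [div_mul_div_comm, div_le_div_iff₀ (by positivity) (by positivity), ← pow_add, ← pow_add,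
      ← pow_add, ← pow_add]
    exact pw (by omega)
  have hbx2 : ∀ ω, A ω → ∀ b, NBx c (T (ptr F J ω)) g a (F.t ω) 3 b →
      |eval b (dir (ek (c 2)) (NH (slam F w ω) 3)) - al₂ (ptr F J ω)| ≤
        2 ^ x * (2 ^ L₂ / 2 ^ gN 3) := by
    intro ω hω b hb
    refine (hpr.bx2 ω hω b hb).trans ?_
    have e1 : (2 : ℝ) ^ g 2 / 2 ^ gN 3 ≤ 2 ^ L₂ / 2 ^ gN 3 :=
      div_le_div_of_nonneg_right (pw (by omega)) (by positivity)
    calc (2 : ℝ) ^ n * (2 ^ g 2 / 2 ^ gN 3 + 2 ^ L₂ / 2 ^ gN 3) ≤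
        2 ^ n * (2 * (2 ^ L₂ / 2 ^ gN 3)) :=
          mul_le_mul_of_nonneg_left (by linarith) (by positivity)
      _ = 2 ^ (n + 1) * (2 ^ L₂ / 2 ^ gN 3) := by rw [pow_succ]; ring
      _ ≤ _ := mul_le_mul_of_nonneg_right (pw (by omega)) (by positivity)
  have hbx1 : ∀ ω, A ω → ∀ b, NBx c (T (ptr F J ω)) g a (F.t ω) 3 b →
      |eval b (dir (v (ptr F J ω)) (NH (slam F w ω) 3)) - al₁ (ptr F J ω)| ≤
        2 ^ (x + q) * (2 ^ (g 1 + L₂) / 2 ^ (g 2 + gN 3)) := by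
    intro ω hω b hb
    refine (hpr.bx1 ω hω b hb).trans ?_
    obtain ⟨u, hu⟩ : ∃ u : ℝ, u = 2 ^ (g 1 + L₂) / 2 ^ (g 2 + gN 3) := ⟨_, rfl⟩
    have hu0 : 0 ≤ u := by rw [hu]; positivity
    have u1 : (2 : ℝ) ^ g 1 / 2 ^ gN 3 ≤ 2 ^ q * u := by
      rw [hu, ← mul_div_assoc, div_le_div_iff₀ (by positivity) (by positivity), ← pow_add,
        ← pow_add, ← pow_add]
      exact pw (by omega)
    have u2 : (2 : ℝ) ^ L₁ / 2 ^ gN 3 ≤ 2 ^ q * u := by
      rw [hu, ← mul_div_assoc, div_le_div_iff₀ (by positivity) (by positivity), ← pow_add,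
        ← pow_add, ← pow_add]
      exact pw (by omega)
    have u3 : (2 : ℝ) ^ g 1 / 2 ^ g 2 * (2 ^ L₂ / 2 ^ gN 3) ≤ 2 ^ q * u := by
      have e1 : (2 : ℝ) ^ g 1 / 2 ^ g 2 * (2 ^ L₂ / 2 ^ gN 3) = u := by
        rw [hu, div_mul_div_comm, pow_add, pow_add]
      rw [e1]
      exact le_mul_of_one_le_left hu0 (one_le_pow₀ (by norm_num))
    rw [← hu]
    calc _ ≤ (2 : ℝ) ^ n * (4 * (2 ^ q * u)) := by
          refine mul_le_mul_of_nonneg_left ?_ (by positivity)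
          have : 0 ≤ 2 ^ q * u := by positivity
          linarith
      _ = 2 ^ (x + q) * u := by rw [hx, pow_add, pow_add]; ring
  have hx2n : ∀ z : ℝ, 0 ≤ z → 2 ^ n * z ≤ 2 ^ x * z := fun z hz =>
    mul_le_mul_of_nonneg_right (pw (by omega)) hz
  have hloA : ∀ ω, B₂ ω → 2 ^ (a + L₂) / 2 ^ gN 3 / 2 ^ x ≤
      |(hcl (c 2) (NH (slam F w ω) 3) (slam F w ω)).eval (F.t ω)| := fun ω hω =>
    (div_le_div_of_nonneg_left (by positivity) (by positivity) (pw (by omega))).trans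
      (hpr.lo ω (b2 ω hω))
  have hShr : ∀ ω, B ω → Shr F c 1 a g T v x 2 ω := by
    intro ω hω b hb sv hsv
    refine (hshr ω hω b hb sv hsv).trans ?_
    exact div_le_div_of_nonneg_right (pw (by omega)) (by positivity)
  have hnl := nlp_01 g
  have hgM1 := hgM 1 (by norm_num)
  -- S6
  obtain ⟨P2, q2, t2⟩ := part cM cS B₂ sB2 p2 (by omega)
  obtain ⟨B₃, b3, p3, h6⟩ := hs6 (F := F) (c := c) (a := a) (w := w) (w₂ := w₂) (e := e) (h := h)
    (h' := h) (n := n) (n' := n) (p := p) (q := q) (s := s) (x := x)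
    (xX := n + e + nlp g 0 1) (lam₁ := L₁) (lam₂ := L₂) (D' := D) (D₂ := D₂) (D₃ := D) (G := G)
    (g := g) (gN := gN) (g₄ := g) (κ := κ) (θ := θ) (B₀ := B₀) (A := A) (B := B₂) (T := T)
    (T₄ := T) (TH := TH) (NH := NH) (v := v) (X := X) (ν₀ := ν₀)
    (ξ := fun s' => gcl (c 0) (NH s' 1) s') (al₂ := al₂) hcc3 (by omega)
    (relvF_low hRH.relv (by norm_num) hcc3 hT.depG)
    (hT.mono (by norm_num) (fun _ => le_rfl) le_rfl le_rfl) hR3 (fun ω h => hB ω (sB2 ω h)) P2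
    hκ0 q2 (by
      have : cS * (n + h + s + 1) ≤ cS * (n + n + x + h + s + 1) :=
        Nat.mul_le_mul_left _ (by omega)
      omega) hw2a haJ1 t2 hθ (((rle r₂ (by linarith) (by linarith)).trans hθJ).trans hJw)
    ((rle r₂ (by linarith) (by linarith)).trans hθs) (by
      have h2 : w₂ * M = w * M + M * y := by rw [hw₂]; ring
      omega) (fun s' => hN.degH s' 3) (fun s' => hN.depH s' 3)
    (fun s' => gcl_deg (c 0) (hN.degH s' 1) s') hT.degG hT.depG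
    (fun y' => ⟨(hv y').1, (hv y').2.1⟩) (fun ω h => hShr ω (sB2 ω h)) (fun ω h => hR3.sl1 ω h)
    (by
      have : cS * (n + h + 1) ≤ cS * (n + n + x + h + s + 1) :=
        Nat.mul_le_mul_left _ (by omega)
      have h1 := hrg 0 (by norm_num)
      have h2 := hrg 1 (by norm_num)
      have h2y := cC 2 (by omega)
      rcases le_total (g 0) (g 1) with h3 | h3
      · rw [max_eq_right h3] at hnl
        omega
      · rw [max_eq_left h3] at hnl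
        omega) (by
      have : cS * (n + h + 1) ≤ cS * (n + n + x + h + s + 1) :=
        Nat.mul_le_mul_left _ (by omega)
      omega) x1 x2 (fun ω h t ht => by
      simp only [gcl_eval]
      exact f1 ω h t ht) (fun ω h b hb => hbx2 ω (b2 ω h) b hb)
    (fun ω h t ht => hpr.u2 ω (b2 ω h) t ht) hloA hPv (by omega) hL (by omega)
    (hgx 1 (by norm_num)) (by
      rw [hG, hw₂, ← Nat.mul_add]
      refine Nat.mul_le_mul_left _ ?_
      omega)
  rw [← hZ] at h6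
  have sB3 : Sub B₃ B := fun ω h => sB2 ω (b3 ω h)
  have p3' := hfr cM 1 B₂ B₃ p2 (by rwa [pow_one])
  obtain ⟨P3, q3, t3⟩ := part (cM + 1) cT B₃ sB3 p3' (by omega)
  -- the tail
  refine htail (F := F) (c := c) (a := a) (w := w) (w₂ := w₂) (e := e) (h := h) (n := n) (p := p)
    (q := q) (s := s) (x := x) (y := y) (Z := Z) (lam₁ := L₁) (lam₂ := L₂) (D₂ := D₂) (g := g)
    (gN := gN) (κ := κ) (θ := θ) (B₀ := B₀) (A := A) (B := B₃) (T := T) (N := N) (TH := TH)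
    (NH := NH) (v := v) (X := X) (ν₀ := ν₀) (al₁ := al₁) (al₂ := al₂) (hR3.sub b3) hcc3 (by omega)
    hRH.relv hT (fun ω h => hB ω (sA ω h)) (fun ω h => b2 ω (b3 ω h)) P3 hκ0 q3 hw₂ hw2a haJ1 t3
    hθ (((rle r₃ (by linarith) (by linarith)).trans hθJ).trans hJw)
    ((rle r₃ (by linarith) (by linarith)).trans hθs) hgM1 hN.degH (fun s' => hN.depH s' 3)
    (fun y' => ⟨(hv y').1, (hv y').2.1⟩) (fun ω h => hShr ω (sA ω h)) (fun ω h b hb => ?_)
    (fun ω h b hb => ⟨hbx1 ω h b hb, (hbx2 ω h b hb).trans ?_, ?_⟩)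
    (fun ω h t ht => (f1 ω (b3 ω h) t ht).trans (hx2n _ (by positivity)))
    (fun ω h t t1 t2 => (hup2 ω (sB3 ω h) t t1 t2).trans ?_) (fun ω h => hloA ω (b3 ω h))
    (fun ω h => hPv ω (b3 ω h)) hL (hgx 1 (by norm_num)) h6 hTn hq (by omega) (by omega)
    (fun l hl => ?_)
  · refine (hpr.slT ω h b hb).trans ?_
    exact div_le_div_of_nonneg_right (mul_le_mul_of_nonneg_right (pw (by omega)) (by positivity))
      (by positivity)
  · exact mul_le_mul_of_nonneg_right (pw (by omega)) (by positivity)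
  · exact (hpr.ag ω h b hb).trans (div_le_div_of_nonneg_right (pw (by omega)) (by positivity))
  · exact div_le_div_of_nonneg_right (pw (by omega)) (by positivity)
  · have := hrg l hl
    omega

end Pool.NVX
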