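import Pool.Agent.H80.NTT.Pre3
import Pool.Agent.H87.NV.S4
import Pool.Agent.H87.NV.StO

/-!
# The relation of the slopes and the size of the second derivatives, for the assembly of `nv_t3`

`nt_mid`.
-/

set_option autoImplicit false

namespace Pool.NVX

open Finset Real MvPolynomial
open Pool.Agent.H49.Ent Pool.Agent.H32.Dense Pool.STK Pool.KA Pool.KSAT Pool.K2S Pool.PB Pool.S6C
open Pool.GEN Pool.CHT
open Pool.D2R (dd hs dd_add dd_smul dd_congr)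
open Pool.F5 (lp gp der_lp dd_gp deg_gp deg_lp eo bdS bdS_slam eval_lp eval_gp)
open Pool.SHR (dir mvp RelvH Shr ShrY relvF_low lab_near slp_cmp)
open Pool.PB.Trl (rt rt_mem t_rt)
open Pool.FLF (Fam.sub)

variable {m J : ℕ}

theorem Nt3.mono {F : Fam m J} {c : ℕ → Fin m} {a w L₁ L₂ n n' : ℕ} {g gN : ℕ → ℕ}
    {B : F.Ω → Prop} {T N : PtT F → ℕ → MvPolynomial (Option (Fin m)) ℝ}
    {NH : LnT F → ℕ → MvPolynomial (Option (Fin m)) ℝ} {v : PtT F → Fin m → ℝ}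
    {al₁ al₂ : PtT F → ℝ} (H : Nt3 F c a w L₁ L₂ n g gN B T N NH v al₁ al₂) (hn : n ≤ n') :
    Nt3 F c a w L₁ L₂ n' g gN B T N NH v al₁ al₂ := by
  have pw : (2 : ℝ) ^ n ≤ 2 ^ n' := pow_le_pow_right₀ (by norm_num) hn
  exact ⟨fun ω h i hi b hb => (H.nr ω h i hi b hb).trans (div_le_div_of_nonneg_right pw
    (by positivity)), fun ω h b hb => (H.ag ω h b hb).trans (div_le_div_of_nonneg_right pw
    (by positivity)), fun ω h b hb => (H.slT ω h b hb).trans (div_le_div_of_nonneg_right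
    (mul_le_mul_of_nonneg_right pw (by positivity)) (by positivity)), H.u1, H.u2,
    fun ω h => (div_le_div_of_nonneg_left (by positivity) (by positivity) pw).trans (H.lo ω h),
    fun ω h b hb => (H.bx1 ω h b hb).trans (mul_le_mul_of_nonneg_right pw (by positivity)),
    fun ω h b hb => (H.bx2 ω h b hb).trans (mul_le_mul_of_nonneg_right pw (by positivity))⟩

/-- **The relation of the slopes**, and the second derivative in the direction `c 1` is at most the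
one in the direction `c 2`. -/
theorem nt_mid (m D M : ℕ) (hD : 1 ≤ D) : ∃ (C : ℕ) (C₁ : ℝ), 1 ≤ C₁ ∧
    ∀ {J : ℕ} {F : Fam m J} {c : ℕ → Fin m} {a w w₂ a₂ a₃ e E h s y p lam₁ lam₂ D₂ : ℕ}
    {gN g g₂ g₃ Y : ℕ → ℕ} {κ θ : ℝ} {B₀ B : F.Ω → Prop}
    {N T T₂ T₃ : PtT F → ℕ → MvPolynomial (Option (Fin m)) ℝ}
    {NH TH T₂H T₃H : LnT F → ℕ → MvPolynomial (Option (Fin m)) ℝ}
    {v : PtT F → Fin m → ℝ} {v' : LnT F → Fin m → ℝ},
    Set.InjOn c (Set.Iio 4) → w₂ = w + y → w₂ ≤ a → a ≤ a₂ → a₂ ≤ a₃ → a₃ + 1 ≤ J → C ≤ D₂ →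
    0 < Pe F.p B → Sub B B₀ → ChOK F c 4 (fun _ => D) a w E gN B N NH →
    ChOK F c 3 (fun _ => D) a w₂ e g B₀ T TH → RelvH F c 3 a w₂ g Y D₂ h κ B₀ T →
    ChOK F c 3 (fun _ => D) a₂ a₂ e g₂ B₀ T₂ T₂H → RelvF F c 3 a₂ a₂ g₂ D₂ h κ B₀ T₂ →
    ChOK F c 2 (fun _ => D) a₃ a₃ e g₃ B₀ T₃ T₃H →
    0 ≤ κ → κ * 2 ^ C * Pe F.p B₀ ≤ Pe F.p B → κ * 2 ^ C ≤ 1 →
    (∀ (B' : F.Ω → Prop) (hB' : 0 < Pe F.p B'), Sub B' B → Pe F.p B ≤ 2 ^ C * Pe F.p B' →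
      (Fam.sub F B' hB').Tm θ) → 0 ≤ θ → C₁ * (θ + 1) ≤ ((J : ℝ) - a₃) * Real.log 2 →
    C₁ * (θ + 1) ≤ s → h ≤ s → (∀ l < 3, gN l ≤ g l + s) → (∀ l < 3, g l ≤ gN l + M * y) →
    (∀ j < 3, Y j ≤ J) → (∀ l < 4, 2 * e + E + gN l + C * y ≤ J) →
    (∀ l < 3, 2 * e + E + g l + C * y ≤ J) → (∀ l < 3, e + g₂ l + C * y ≤ J) →
    (∀ l < 2, e + g₃ l + C * y ≤ J) → C * y ≤ gN 3 → C * (s + 1) ≤ y →
    (∀ ω, B ω → v (ptr F J ω) = v' (slam F a ω)) →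
    (∀ ω, B ω → v (ptr F J ω) (c 0) = 0 ∧ v (ptr F J ω) (c 1) = 1) →
    (∀ ω, B ω → ShrY F c a (g 1) g T v s 2 ω) →
    (∀ ω, B ω → ∀ t : ℝ, F.t ω - rt F w ω / 2 ^ w ≤ t → t ≤ F.t ω + (1 - rt F w ω) / 2 ^ w →
      |(hcl (c 2) (NH (slam F w ω) 3) (slam F w ω)).eval t| ≤ 2 ^ (a + lam₂) / 2 ^ gN 3) →
    (∀ ω, B ω → ∃ t : ℝ, F.t ω - rt F w ω / 2 ^ w ≤ t ∧ t ≤ F.t ω + (1 - rt F w ω) / 2 ^ w ∧
      2 ^ (a + lam₂) / 2 ^ gN 3 / 2 ^ s ≤
        |(hcl (c 2) (NH (slam F w ω) 3) (slam F w ω)).eval t|) →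
    (∀ ω, B ω → ∀ t : ℝ, F.t ω - rt F w ω / 2 ^ w ≤ t → t ≤ F.t ω + (1 - rt F w ω) / 2 ^ w →
      |(hcv (c 1) (c 2) (NH (slam F w ω) 2) (NH (slam F w ω) 3) (slam F w ω)).eval t| ≤
        2 ^ (a + lam₁) / 2 ^ gN 3) →
    (lam₂ + g 1 < lam₁ + gN 2 → ∀ ω, B ω → ∃ t : ℝ, F.t ω - rt F w ω / 2 ^ w ≤ t ∧
      t ≤ F.t ω + (1 - rt F w ω) / 2 ^ w ∧ 2 ^ (a + lam₁) / 2 ^ gN 3 / 2 ^ s ≤
        |(hcv (c 1) (c 2) (NH (slam F w ω) 2) (NH (slam F w ω) 3) (slam F w ω)).eval t|) →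
    gN 2 ≤ lam₂ → C * y ≤ p → g 1 + p + a₃ + C * y ≤ g₃ 1 + a →
    g₂ 1 + p + a₃ + C * y ≤ g₃ 1 + a → g 2 + p + a₂ + C * y ≤ g₂ 2 + a →
    ∃ (A B' : F.Ω → Prop) (X : PtT F → Option (Fin m) → ℝ) (ν₀ : PtT F → F.Ω)
      (al₁ al₂ : PtT F → ℝ) (L₁ L₂ n q : ℕ), Sub A B ∧ Sub B' A ∧
      Pe F.p B / 2 ^ C ≤ Pe F.p B' ∧ n ≤ C * (s + 1) ∧ s ≤ n ∧ q ≤ C * y ∧ lam₂ ≤ L₂ ∧
      L₁ + g 2 ≤ L₂ + g 1 + q ∧
      Rel3 F c a w e n p L₁ L₂ D h g gN g A B' T T NH v X ν₀ ∧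
      Nt3 F c a w L₁ L₂ n g gN A T N NH v al₁ al₂ ∧
      (∀ ω, B' ω → ∀ t : ℝ, |t - F.t ω| ≤ 1 / 2 ^ a → |X (ptr F J ω) (some (c 1)) -
        eval (bt F ω + (t - F.t ω) • bd F ω) (pderiv (some (c 0)) (NH (slam F w ω) 1))| ≤
          2 ^ n * (2 ^ g 0 / 2 ^ gN 1)) ∧
      (∀ ω, B' ω → ∀ b, NBx c (T (ptr F J ω)) g a (F.t ω) 1 b →
        |b (some (c 0)) - (F.x ω (c 0) + (b none - F.t ω) * bd F ω (some (c 0)))| ≤
          2 ^ n / 2 ^ g 0) ∧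
      ∀ ω, B' ω → ∀ b, NBx c (T (ptr F J ω)) g a (F.t ω) 2 b →
        |(b (some (c 1)) - (F.x ω (c 1) + (b none - F.t ω) * bd F ω (some (c 1)))) -
          X (ptr F J ω) (some (c 1)) *
          (b (some (c 0)) - (F.x ω (c 0) + (b none - F.t ω) * bd F ω (some (c 0))))| ≤
          2 ^ n / 2 ^ g 1 := by
  obtain ⟨cP, cW, r₁, hr₁, hpre⟩ := nt_pre m D hD
  obtain ⟨cR, r₂, hr₂, hrel⟩ := rel_threew m D hD
  obtain ⟨cF, hfr1⟩ := st_one D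
  obtain ⟨cG, hfr2⟩ := st_node D
  obtain ⟨cX, hbx⟩ := rel3_bx D hD
  obtain ⟨cS, r₃, hr₃, hsm⟩ := s4_small m D M
  have pw : ∀ {x y : ℕ}, x ≤ y → (2 : ℝ) ^ x ≤ 2 ^ y := fun h => pow_le_pow_right₀ (by norm_num) h
  -- the constants
  obtain ⟨k₀, hk₀⟩ : ∃ k, k = cP + cR + 1 := ⟨_, rfl⟩
  obtain ⟨k₁, hk₁⟩ : ∃ k, k = cX * (k₀ + 1) + cF * (2 * k₀ + 1) + k₀ + cW + 3 := ⟨_, rfl⟩
  obtain ⟨k₂, hk₂⟩ : ∃ k, k = cG * (2 * k₀ + 1 + M + 1) + 2 := ⟨_, rfl⟩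
  obtain ⟨C, hC⟩ : ∃ C, C = cP + cR + cS + cG + cS * (2 * k₁ + 3) + k₂ + 4 * k₁ + k₀ + M + 2 * D +
    20 := ⟨_, rfl⟩
  refine ⟨C, r₁ + r₂ + r₃, by linarith, ?_⟩
  intro J F c a w w₂ a₂ a₃ e E h s y p lam₁ lam₂ D₂ gN g g₂ g₃ Y κ θ B₀ B N T T₂ T₃ NH TH T₂H T₃H
    v v' hc hw₂ hw2a ha2 ha3 ha3J hDC hPB hB hN hT hRH hT2 hR2 hT3 hκ0 hκP hκ1 hTm hθ hθJ hθs
    hhs hgx hgM hYJ hrN hrg hr2 hr3 hgN3 hCy hvv hv01 hshr hup2 hlo2 hup1 hlo1 hg2 hp n1 n2 n3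
  have ha2J : a₂ ≤ J := by omega
  have haJ1 : a + 1 ≤ J := by omega
  have haJ : a ≤ J := by omega
  have hww : w ≤ w₂ := by omega
  have hwJ : w ≤ J := by omega
  have hcc3 : Set.InjOn c (Set.Iio 3) := hc.mono (Set.Iio_subset_Iio (by norm_num))
  have hcc2 : Set.InjOn c (Set.Iio 2) := hc.mono (Set.Iio_subset_Iio (by norm_num))
  obtain ⟨T₀, hT₀⟩ : ∃ T₀, T₀ = s + 1 := ⟨_, rfl⟩
  have hT1 : 1 ≤ T₀ := by omega
  have hT0s : s ≤ T₀ := by omega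
  have hCT : C * T₀ ≤ y := by rw [hT₀]; exact hCy
  have hC1 : 1 ≤ C := by omega
  have hTy : T₀ ≤ y := le_trans (Nat.le_mul_of_pos_left _ hC1) hCT
  have hy1 : 1 ≤ y := hT1.trans hTy
  have cy : ∀ x : ℕ, x ≤ C → x * T₀ ≤ y := fun x hx => (Nat.mul_le_mul_right _ hx).trans hCT
  have cC : ∀ x : ℕ, x ≤ C → x * y ≤ C * y := fun x hx => Nat.mul_le_mul_right _ hx
  have cTy : C * T₀ ≤ C * y := Nat.mul_le_mul_left _ hTy
  have cTC : ∀ x : ℕ, x ≤ C → x * T₀ ≤ C * y := fun x hx => (Nat.mul_le_mul_right _ hx).trans cTy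
  -- the parts
  have part : ∀ (k j : ℕ) (A : F.Ω → Prop), Sub A B → Pe F.p B / 2 ^ k ≤ Pe F.p A → k + j ≤ C →
      0 < Pe F.p A ∧ κ * 2 ^ j * Pe F.p B₀ ≤ Pe F.p A ∧
      ∀ (B' : F.Ω → Prop) (hB' : 0 < Pe F.p B'), Sub B' A → Pe F.p A ≤ 2 ^ j * Pe F.p B' →
        (Fam.sub F B' hB').Tm θ := by
    intro k j A hA h1 hkj
    have h2k : (0 : ℝ) < 2 ^ k := by positivity
    have h2 : Pe F.p B ≤ 2 ^ k * Pe F.p A := by
      rw [div_le_iff₀ h2k] at h1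
      linarith
    refine ⟨(div_pos hPB h2k).trans_le h1, ?_, ?_⟩
    · refine le_trans ?_ h1
      rw [le_div_iff₀ h2k]
      refine le_trans ?_ hκP
      have e1 : κ * 2 ^ j * Pe F.p B₀ * 2 ^ k = κ * 2 ^ (k + j) * Pe F.p B₀ := by
        rw [pow_add]
        ring
      rw [e1]
      exact mul_le_mul_of_nonneg_right (mul_le_mul_of_nonneg_left (pw hkj) hκ0)
        (Pe_nonneg F.isLaw B₀)
    · intro B' hB' hs h3
      refine hTm B' hB' (fun ω h => hA ω (hs ω h)) ?_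
      calc Pe F.p B ≤ 2 ^ k * Pe F.p A := h2
        _ ≤ 2 ^ k * (2 ^ j * Pe F.p B') := mul_le_mul_of_nonneg_left h3 h2k.le
        _ = 2 ^ (k + j) * Pe F.p B' := by rw [pow_add]; ring
        _ ≤ 2 ^ C * Pe F.p B' := mul_le_mul_of_nonneg_right (pw hkj) (Pe_nonneg F.isLaw B')
  have hfr : ∀ (k j : ℕ) (A A' : F.Ω → Prop), Pe F.p B / 2 ^ k ≤ Pe F.p A →
      Pe F.p A / 2 ^ j ≤ Pe F.p A' → Pe F.p B / 2 ^ (k + j) ≤ Pe F.p A' := by
    intro k j A A' h1 h2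
    refine le_trans ?_ h2
    rw [pow_add, ← div_div]
    exact div_le_div_of_nonneg_right h1 (by positivity)
  have hr0 : 0 ≤ θ + 1 := by linarith
  have rle : ∀ r : ℝ, 0 ≤ r → r ≤ r₁ + r₂ + r₃ → r * (θ + 1) ≤ (r₁ + r₂ + r₃) * (θ + 1) :=
    fun r _ hr => mul_le_mul_of_nonneg_right hr hr0
  have hlog : 0 ≤ Real.log 2 := Real.log_nonneg (by norm_num)
  have hJa : ((J : ℝ) - a₃) * Real.log 2 ≤ ((J : ℝ) - a) * Real.log 2 := by
    refine mul_le_mul_of_nonneg_right ?_ hlog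
    have : (a : ℝ) ≤ a₃ := by exact_mod_cast ha2.trans ha3
    linarith
  have hJw : ((J : ℝ) - a₃) * Real.log 2 ≤ ((J : ℝ) - w) * Real.log 2 := by
    refine mul_le_mul_of_nonneg_right ?_ hlog
    have : (w : ℝ) ≤ a₃ := by exact_mod_cast (hww.trans hw2a).trans (ha2.trans ha3)
    linarith
  -- the preliminary facts
  obtain ⟨L₂, hL₂⟩ : ∃ L, L = lam₂ + cW := ⟨_, rfl⟩
  obtain ⟨L₁, hL₁⟩ : ∃ L, L = max (lam₁ + cW) (L₂ + cP * (s + 1) + g 1 - gN 2) + 1 := ⟨_, rfl⟩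
  obtain ⟨-, q0, t0⟩ := part 0 cP B (fun ω h => h) (by rw [pow_zero, div_one]) (by omega)
  obtain ⟨B₁, al₁, al₂, b1, p1, hpr⟩ := hpre (D₂ := D₂) (w₂ := w₂) hc hww hw2a haJ1 (by omega) hPB
    hB hN hT hRH hκ0 q0 t0 hθ (((rle r₁ (by linarith) (by linarith)).trans hθJ).trans hJa)
    ((rle r₁ (by linarith) (by linarith)).trans hθs) hhs hgx hYJ (fun l hl => by
      have h1 := hrN l hl
      have h2 := cTC cP (by omega)
      rw [← hT₀]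
      omega) (fun l hl => by
      have h1 := hrg l hl
      have h2 := cTC cP (by omega)
      rw [← hT₀]
      omega) (by
      have h2 := cTC cP (by omega)
      rw [← hT₀]
      omega) hv01 hshr hup2 hlo2 hup1 hg2 hL₂ hL₁
  -- the relation
  obtain ⟨P1, q1, t1⟩ := part cP cR B₁ b1 p1 (by omega)
  have hwin : ∀ (ω : F.Ω) (t : ℝ), F.t ω - rt F a ω / 2 ^ a ≤ t →
      t ≤ F.t ω + (1 - rt F a ω) / 2 ^ a → |t - F.t ω| ≤ 1 / 2 ^ a := by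
    intro ω t t1 t2
    have hrt := rt_mem F a ω
    have h1 : rt F a ω / 2 ^ a ≤ 1 / 2 ^ a :=
      div_le_div_of_nonneg_right hrt.2 (by positivity)
    have h2 : (1 - rt F a ω) / 2 ^ a ≤ 1 / 2 ^ a :=
      div_le_div_of_nonneg_right (by linarith [hrt.1]) (by positivity)
    rw [abs_le]
    constructor <;> linarith
  have hcR := cTC cR (by omega)
  obtain ⟨A, B₂, X, ν₀, a2, b2, p2, hR3⟩ := hrel (D₂ := D₂) (w₁ := w₂) (s := s) (p := p)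
    (lam₁ := L₁) (lam₂ := L₂) hc hww hw2a ha2 ha3 (by omega) haJ1 (by omega) P1
    (fun ω h => hB ω (b1 ω h)) (hN.sub b1) hT hRH hT2 (hR2.mono (by omega) le_rfl) hT3 hκ0 q1
    ((mul_le_mul_of_nonneg_left (pw (by omega)) hκ0).trans hκ1) t1 hθ
    ((rle r₂ (by linarith) (by linarith)).trans hθJ)
    ((rle r₂ (by linarith) (by linarith)).trans hθs) hhs hgx hYJ (fun l hl => by
      have h1 := hrN l hl
      rw [← hT₀]
      omega) (fun l hl => by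
      have h1 := hrg l hl
      rw [← hT₀]
      omega) (fun l hl => by
      have h1 := hr2 l hl
      rw [← hT₀]
      omega) (fun l hl => by
      have h1 := hr3 l hl
      rw [← hT₀]
      omega) (by rw [← hT₀]; omega) (fun ω h => hvv ω (b1 ω h)) (fun ω h => hv01 ω (b1 ω h))
    (fun ω h => hshr ω (b1 ω h)) (fun ω h t t1 t2 => hpr.u1 ω h t (hwin ω t t1 t2))
    (fun ω h t t1 t2 => hpr.u2 ω h t (hwin ω t t1 t2)) (by rw [← hT₀]; omega)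
    (by rw [← hT₀]; omega) (by rw [← hT₀]; omega)
  have p2' := hfr cP cR B₁ B₂ p1 p2
  have sA : Sub A B := fun ω h => b1 ω (a2 ω h)
  have sB2 : Sub B₂ B := fun ω h => sA ω (b2 ω h)
  have sB21 : Sub B₂ B₁ := fun ω h => a2 ω (b2 ω h)
  rw [← hT₀] at hR3 hpr hL₁
  -- the numbers
  obtain ⟨n, hn⟩ : ∃ n, n = k₀ * T₀ := ⟨_, rfl⟩
  have hn0 : k₀ * T₀ = cP * T₀ + cR * T₀ + T₀ := by rw [hk₀]; ring
  have hR3' := hR3.mono (n' := n) (by omega)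
  have hpr' := hpr.mono (n' := n) (by omega)
  obtain ⟨n', hn'⟩ : ∃ n', n' = cX * (n + h + 1) + cF * (n + n + s + 1) + n + cW := ⟨_, rfl⟩
  have hn'k : n' + h + (s + cW) + 1 ≤ 2 * (k₁ * T₀) := by
    have e1 : k₁ * T₀ = cX * ((k₀ + 1) * T₀) + cF * ((2 * k₀ + 1) * T₀) + k₀ * T₀ + cW * T₀ +
        3 * T₀ := by rw [hk₁]; ring
    have e2 : cX * (n + h + 1) ≤ cX * ((k₀ + 1) * T₀) := by
      refine Nat.mul_le_mul_left _ ?_
      rw [Nat.add_mul]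
      omega
    have e3 : cF * (n + n + s + 1) ≤ cF * ((2 * k₀ + 1) * T₀) := by
      refine Nat.mul_le_mul_left _ ?_
      have : (2 * k₀ + 1) * T₀ = k₀ * T₀ + k₀ * T₀ + T₀ := by ring
      omega
    have e4 : cW ≤ cW * T₀ := Nat.le_mul_of_pos_right _ hT1
    omega
  have hk1y := cy (4 * k₁) (by omega)
  have hk1C : 4 * k₁ * T₀ = 4 * (k₁ * T₀) := by ring
  have hnn' : n ≤ n' := by omega
  -- the frames and the boxes
  have hN3 : ChOK F c 3 (fun _ => D) a w E gN B₂ N NH :=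
    (hN.mono (by norm_num) (fun _ => le_rfl) le_rfl le_rfl).sub sB2
  have hpr2 := hpr'.sub sB21
  have f1 := hfr1 (q := n) (s := s) hR3' hcc2 hN3 hT.degG hT.depG
    (fun l hl => hgx l (by omega)) (fun ω h i hi b hb => hpr2.nr ω h i (by omega) b hb)
  have f2 := hfr2 (q := n) (s := s + M * y) hR3' hcc2 hN3 hT.degG hT.depG
    (fun l hl => (hgx l (by omega)).trans (by omega))
    ((hgM 2 (by norm_num)).trans (by omega)) (fun ω h i hi b hb => hpr2.nr ω h i hi b hb)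
  obtain ⟨x1, x2⟩ := hbx hR3' haJ b2 hT.degG hT.depG (Nat.le_add_right _ _)
  have f1' : ∀ ω, B₂ ω → ∀ t : ℝ, |t - F.t ω| ≤ 1 / 2 ^ a → |X (ptr F J ω) (some (c 1)) -
      eval (bt F ω + (t - F.t ω) • bd F ω) (pderiv (some (c 0)) (NH (slam F w ω) 1))| ≤
        2 ^ n' * (2 ^ g 0 / 2 ^ gN 1) := fun ω h t ht =>
    (f1 ω h t ht).trans (mul_le_mul_of_nonneg_right (pw (by omega)) (by positivity))
  have x1' : ∀ ω, B₂ ω → ∀ b, NBx c (T (ptr F J ω)) g a (F.t ω) 1 b →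
      |b (some (c 0)) - (F.x ω (c 0) + (b none - F.t ω) * bd F ω (some (c 0)))| ≤
        2 ^ n' / 2 ^ g 0 := fun ω h b hb =>
    (x1 ω h b hb).trans (div_le_div_of_nonneg_right (pw (by omega)) (by positivity))
  have x2' : ∀ ω, B₂ ω → ∀ b, NBx c (T (ptr F J ω)) g a (F.t ω) 2 b →
      |(b (some (c 1)) - (F.x ω (c 1) + (b none - F.t ω) * bd F ω (some (c 1)))) -
        X (ptr F J ω) (some (c 1)) *
        (b (some (c 0)) - (F.x ω (c 0) + (b none - F.t ω) * bd F ω (some (c 0))))| ≤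
        2 ^ n' / 2 ^ g 1 := fun ω h b hb =>
    (x2 ω h b hb).trans (div_le_div_of_nonneg_right (pw (by omega)) (by positivity))
  -- the second derivative in the direction `c 1`
  obtain ⟨q₄, hq₄⟩ : ∃ q, q = cG * (n + n + (s + M * y) + 1) + s := ⟨_, rfl⟩
  obtain ⟨G₄, hG₄⟩ : ∃ G, G = cS * (y + n' + h + (s + cW) + 1) := ⟨_, rfl⟩
  obtain ⟨Z₄, hZ₄⟩ : ∃ Z, Z = G₄ + q₄ + n + 2 * (s + cW) + 6 := ⟨_, rfl⟩
  have hG4y : G₄ ≤ cS * (2 * y) := by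
    rw [hG₄]
    refine Nat.mul_le_mul_left _ ?_
    omega
  have hk0y := cy (4 * k₀) (by omega)
  have hk0C : 4 * k₀ * T₀ = 4 * (k₀ * T₀) := by ring
  have hq4y : q₄ ≤ cG * ((M + 2) * y) + y := by
    rw [hq₄]
    refine Nat.add_le_add (Nat.mul_le_mul_left _ ?_) (by omega)
    have : (M + 2) * y = M * y + 2 * y := by ring
    omega
  have e6 : cS * (2 * y) = 2 * (cS * y) := by ring
  have hcZ : 2 * (cS * y) + cG * ((M + 2) * y) + 8 * y + M * y ≤ C * y := by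
    have e1 : 2 * (cS * y) + cG * ((M + 2) * y) + 8 * y + M * y =
        (2 * cS + cG * (M + 2) + 8 + M) * y := by ring
    rw [e1]
    refine cC _ ?_
    have e2 : cG * (M + 2) ≤ cG * (2 * k₀ + 1 + M + 1) := Nat.mul_le_mul_left _ (by omega)
    have e3 : cS * 1 ≤ cS * (2 * k₁ + 3) := Nat.mul_le_mul_left _ (by omega)
    omega
  have hZy : Z₄ + 1 + M * y ≤ C * y := by omega
  have hZp : G₄ + n + 2 * (s + cW) + 6 ≤ p := by omega
  have hcase : ¬ (L₂ + g 1 + Z₄ ≤ lam₁ + cW + gN 2) := by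
    intro hbig
    obtain ⟨P2, q2, t2⟩ := part (cP + cR) cS B₂ sB2 p2' (by omega)
    have hSm : cS * (n' + h + (s + cW) + 1) ≤ y := by
      refine le_trans ?_ (cy (cS * (2 * k₁ + 3)) (by omega))
      rw [Nat.mul_assoc]
      refine Nat.mul_le_mul_left _ (hn'k.trans ?_)
      rw [Nat.add_mul, Nat.mul_assoc]
      omega
    have hSm' : cS * (n' + h + 1) ≤ y := (Nat.mul_le_mul_left _ (by omega)).trans hSm
    have h2y := cC 2 (by omega)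
    have hnl := nlp_01 g
    refine hsm (F := F) (c := c) (a := a) (w := w) (w₂ := w₂) (e := e) (h := h) (h' := h)
      (n := n) (n' := n') (p := p) (q := q₄) (s := s + cW) (x := n + e + nlp g 0 1)
      (lam₁ := lam₁ + cW) (lam₂ := L₂) (L₁ := L₁) (D' := D) (D₂ := D₂) (D₃ := D) (G := G₄)
      (g := g) (gN := gN) (g₄ := g) (κ := κ) (θ := θ) (B₀ := B₀) (A := A) (B := B₂) (T := T)
      (T₄ := T) (TH := TH) (NH := NH) (v := v) (X := X) (ν₀ := ν₀) hcc2 (by omega)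
      (relvF_low hRH.relv (by norm_num) hcc3 hT.depG)
      (hT.mono (by norm_num) (fun _ => le_rfl) le_rfl le_rfl) hR3' (fun ω h => hB ω (sB2 ω h)) P2
      hκ0 q2 (by omega) hw2a haJ t2 hθ (((rle r₃ (by linarith) (by linarith)).trans hθJ).trans hJw)
      (((rle r₃ (by linarith) (by linarith)).trans hθs).trans (by exact_mod_cast Nat.le_add_right _ _))
      ?_ hN.degH (fun ω h => hR3'.sl1 ω h) ?_ ?_ x1' x2' f1' ?_
      (fun ω h t ht => hpr2.u2 ω h t ht) ?_ ?_ ((hgx 1 (by norm_num)).trans (by omega))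
      ((hgx 2 (by norm_num)).trans (by omega)) (by omega) ?_ (by omega) (by omega)
    · have h1 := hgM 1 (by norm_num)
      have h2 : w₂ * M = w * M + M * y := by rw [hw₂]; ring
      omega
    · have h1 := hrg 0 (by norm_num)
      have h2 := hrg 1 (by norm_num)
      rcases le_total (g 0) (g 1) with h3 | h3
      · rw [max_eq_right h3] at hnl
        omega
      · rw [max_eq_left h3] at hnl
        omega
    · omega
    · intro ω h t ht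
      refine (f2 ω h t ht).trans ?_
      rw [div_le_div_iff₀ (by positivity) (by positivity), ← pow_add, ← pow_add]
      refine pw ?_
      have := hgx 2 (by norm_num)
      omega
    · intro ω h
      obtain ⟨t, t1, t2, t3⟩ := hlo1 (by omega) ω (sB2 ω h)
      refine ⟨t, t1, t2, le_trans (le_of_eq ?_) t3⟩
      rw [div_div, div_div, div_eq_div_iff (by positivity) (by positivity), ← pow_add, ← pow_add,
        ← pow_add, ← pow_add]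
      congr 1
      omega
    · rw [hL₁]
      have : L₂ + cP * T₀ + g 1 - gN 2 ≤ lam₁ + cW := by omega
      rw [max_eq_left this]
    · rw [hG₄, hw₂, ← Nat.mul_add]
      refine Nat.mul_le_mul_left _ ?_
      omega
  have hL : L₁ + g 2 ≤ L₂ + g 1 + (Z₄ + 1 + M * y) := by
    have h1 := hgM 2 (by norm_num)
    rcases le_total (lam₁ + cW) (L₂ + cP * T₀ + g 1 - gN 2) with h3 | h3
    · rw [max_eq_right h3] at hL₁
      omega
    · rw [max_eq_left h3] at hL₁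
      omega
  refine ⟨A, B₂, X, ν₀, al₁, al₂, L₁, L₂, n', Z₄ + 1 + M * y, sA, b2, ?_, ?_, by omega, hZy,
    by omega, hL, hR3'.mono hnn', (hpr'.mono hnn').sub a2, f1', x1', x2'⟩
  · refine le_trans ?_ p2'
    exact div_le_div_of_nonneg_left (Pe_nonneg F.isLaw _) (by positivity) (pw (by omega))
  · rw [← hT₀]
    have := Nat.mul_le_mul_right T₀ (show 4 * k₁ ≤ C by omega)
    omega

end Pool.NVX
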