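import Pool.Agent.H80.NTT.Agr

/-!
# The facts on the event, for the assembly of `nv_t3`

`Nt3`, `nt_pre`.
-/

set_option autoImplicit false

namespace Pool.NVX

open Finset Real MvPolynomial
open Pool.Agent.H49.Ent Pool.Agent.H32.Dense Pool.STK Pool.KA Pool.KSAT Pool.K2S Pool.PB Pool.S6C
open Pool.GEN Pool.CHT
open Pool.D2R (dd hs dd_add dd_smul dd_congr)
open Pool.F5 (lp gp der_lp dd_gp deg_gp deg_lp eo bdS bdS_slam eval_lp eval_gp)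
open Pool.SHR (dir mvp RelvH Shr ShrY relvF_low lab_near slp_cmp)
open Pool.PB.Trl (rt rt_mem t_rt)
open Pool.FLF (Fam.sub)
open Pool.Z3 (jn jn_lt jn_self nbx_jn join_top)
open Pool.ISO (cwn cwn_slam chOK_win)

variable {m J : ℕ}

/-- The facts on the event. -/
structure Nt3 (F : Fam m J) (c : ℕ → Fin m) (a w L₁ L₂ n : ℕ) (g gN : ℕ → ℕ) (B : F.Ω → Prop)
    (T N : PtT F → ℕ → MvPolynomial (Option (Fin m)) ℝ)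
    (NH : LnT F → ℕ → MvPolynomial (Option (Fin m)) ℝ) (v : PtT F → Fin m → ℝ)
    (al₁ al₂ : PtT F → ℝ) : Prop where
  nr : ∀ ω, B ω → ∀ i < 3, ∀ b, NBx c (T (ptr F J ω)) g a (F.t ω) i b →
    |eval b (T (ptr F J ω) i) - eval b (N (ptr F J ω) i)| ≤ 2 ^ n / 2 ^ gN i
  ag : ∀ ω, B ω → ∀ b, NBx c (T (ptr F J ω)) g a (F.t ω) 3 b →
    |eval b (N (ptr F J ω) 3) - eval b (NH (slam F w ω) 3)| ≤ 2 ^ n / 2 ^ gN 3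
  slT : ∀ ω, B ω → ∀ b, NBx c (T (ptr F J ω)) g a (F.t ω) 2 b →
    |eval b (pderiv (some (c 1)) (T (ptr F J ω) 2)) - v (ptr F J ω) (c 2)| ≤
      2 ^ n * 2 ^ g 1 / 2 ^ g 2
  u1 : ∀ ω, B ω → ∀ t : ℝ, |t - F.t ω| ≤ 1 / 2 ^ a →
    |(hcl (c 1) (NH (slam F w ω) 3) (slam F w ω)).eval t +
      v (ptr F J ω) (c 2) * (hcl (c 2) (NH (slam F w ω) 3) (slam F w ω)).eval t| ≤
      2 ^ (a + L₁) / 2 ^ gN 3
  u2 : ∀ ω, B ω → ∀ t : ℝ, |t - F.t ω| ≤ 1 / 2 ^ a →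
    |(hcl (c 2) (NH (slam F w ω) 3) (slam F w ω)).eval t| ≤ 2 ^ (a + L₂) / 2 ^ gN 3
  lo : ∀ ω, B ω → 2 ^ (a + L₂) / 2 ^ gN 3 / 2 ^ n ≤
    |(hcl (c 2) (NH (slam F w ω) 3) (slam F w ω)).eval (F.t ω)|
  bx1 : ∀ ω, B ω → ∀ b, NBx c (T (ptr F J ω)) g a (F.t ω) 3 b →
    |eval b (dir (v (ptr F J ω)) (NH (slam F w ω) 3)) - al₁ (ptr F J ω)| ≤
      2 ^ n * (2 ^ g 1 / 2 ^ gN 3 + 2 ^ L₁ / 2 ^ gN 3 + 2 ^ g 1 / 2 ^ g 2 * (2 ^ L₂ / 2 ^ gN 3))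
  bx2 : ∀ ω, B ω → ∀ b, NBx c (T (ptr F J ω)) g a (F.t ω) 3 b →
    |eval b (dir (ek (c 2)) (NH (slam F w ω) 3)) - al₂ (ptr F J ω)| ≤
      2 ^ n * (2 ^ g 2 / 2 ^ gN 3 + 2 ^ L₂ / 2 ^ gN 3)

theorem Nt3.sub {F : Fam m J} {c : ℕ → Fin m} {a w L₁ L₂ n : ℕ} {g gN : ℕ → ℕ}
    {B B' : F.Ω → Prop} {T N : PtT F → ℕ → MvPolynomial (Option (Fin m)) ℝ}
    {NH : LnT F → ℕ → MvPolynomial (Option (Fin m)) ℝ} {v : PtT F → Fin m → ℝ}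
    {al₁ al₂ : PtT F → ℝ} (H : Nt3 F c a w L₁ L₂ n g gN B T N NH v al₁ al₂) (hB : Sub B' B) :
    Nt3 F c a w L₁ L₂ n g gN B' T N NH v al₁ al₂ :=
  ⟨fun ω h => H.nr ω (hB ω h), fun ω h => H.ag ω (hB ω h), fun ω h => H.slT ω (hB ω h),
    fun ω h => H.u1 ω (hB ω h), fun ω h => H.u2 ω (hB ω h), fun ω h => H.lo ω (hB ω h),
    fun ω h => H.bx1 ω (hB ω h), fun ω h => H.bx2 ω (hB ω h)⟩

/-- The sizes of the second derivatives along the line, from the ones on the window. -/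
theorem nt_size (D : ℕ) : ∃ C : ℕ, ∀ {m J : ℕ} {F : Fam m J} {c : ℕ → Fin m}
    {a w lam₁ lam₂ L₁ L₂ z : ℕ} {g gN : ℕ → ℕ}
    {NH : LnT F → ℕ → MvPolynomial (Option (Fin m)) ℝ} {v₂ : ℝ} {ω : F.Ω}, w ≤ a → a + 1 ≤ J →
    (∀ s l, (NH s l).totalDegree ≤ D) →
    (∀ t : ℝ, F.t ω - rt F w ω / 2 ^ w ≤ t → t ≤ F.t ω + (1 - rt F w ω) / 2 ^ w →
      |(hcl (c 2) (NH (slam F w ω) 3) (slam F w ω)).eval t| ≤ 2 ^ (a + lam₂) / 2 ^ gN 3) →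
    (∀ t : ℝ, F.t ω - rt F w ω / 2 ^ w ≤ t → t ≤ F.t ω + (1 - rt F w ω) / 2 ^ w →
      |(hcv (c 1) (c 2) (NH (slam F w ω) 2) (NH (slam F w ω) 3) (slam F w ω)).eval t| ≤
        2 ^ (a + lam₁) / 2 ^ gN 3) →
    (∀ t : ℝ, |t - F.t ω| ≤ 1 / 2 ^ a →
      |v₂ - eval (bt F ω + (t - F.t ω) • bd F ω) (pderiv (some (c 1)) (NH (slam F w ω) 2))| ≤
        2 ^ (z + g 1) / 2 ^ gN 2) → gN 2 ≤ lam₂ → L₂ = lam₂ + C →
    L₁ = max (lam₁ + C) (L₂ + z + g 1 - gN 2) + 1 →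
    ∀ t : ℝ, |t - F.t ω| ≤ 1 / 2 ^ a →
      |(hcl (c 2) (NH (slam F w ω) 3) (slam F w ω)).eval t| ≤ 2 ^ (a + L₂) / 2 ^ gN 3 ∧
      |(hcl (c 1) (NH (slam F w ω) 3) (slam F w ω)).eval t +
        v₂ * (hcl (c 2) (NH (slam F w ω) 3) (slam F w ω)).eval t| ≤ 2 ^ (a + L₁) / 2 ^ gN 3 := by
  obtain ⟨C₂, h2⟩ := win_box D
  obtain ⟨C₁, h1⟩ := win_box (2 * D)
  have pw : ∀ {x y : ℕ}, x ≤ y → (2 : ℝ) ^ x ≤ 2 ^ y := fun h => pow_le_pow_right₀ (by norm_num) h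
  refine ⟨C₂ + C₁, ?_⟩
  intro m J F c a w lam₁ lam₂ L₁ L₂ z g gN NH v₂ ω hwa haJ hNd hup2 hup1 hsl hg2 hL₂ hL₁ t ht
  have htw : |t - F.t ω| ≤ 1 / 2 ^ w :=
    ht.trans (div_le_div_of_nonneg_left (by norm_num) (by positivity) (pw hwa))
  have k2 := h2 (w := w) (K := 2 ^ (a + lam₂) / 2 ^ gN 3) (by omega)
    (hcl_deg (c 2) (hNd (slam F w ω) 3) (slam F w ω)) hup2 t htw
  have k1 := h1 (w := w) (K := 2 ^ (a + lam₁) / 2 ^ gN 3) (by omega)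
    (hcv_deg (c 1) (c 2) (hNd (slam F w ω) 2) (hNd (slam F w ω) 3) (slam F w ω)) hup1 t htw
  have e2 : |(hcl (c 2) (NH (slam F w ω) 3) (slam F w ω)).eval t| ≤ 2 ^ (a + L₂) / 2 ^ gN 3 := by
    refine k2.trans ?_
    rw [← mul_div_assoc, ← pow_add]
    exact div_le_div_of_nonneg_right (pw (by omega)) (by positivity)
  refine ⟨e2, ?_⟩
  rw [hcv_eval] at k1
  have k3 := hsl t ht
  obtain ⟨P1, hP1⟩ : ∃ z, z = (hcl (c 1) (NH (slam F w ω) 3) (slam F w ω)).eval t := ⟨_, rfl⟩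
  obtain ⟨P2, hP2⟩ : ∃ z, z = (hcl (c 2) (NH (slam F w ω) 3) (slam F w ω)).eval t := ⟨_, rfl⟩
  obtain ⟨e1, he1⟩ : ∃ z, z = eval (bt F ω + (t - F.t ω) • bd F ω)
    (pderiv (some (c 1)) (NH (slam F w ω) 2)) := ⟨_, rfl⟩
  rw [← hP1, ← hP2, ← he1] at k1
  rw [← he1] at k3
  rw [← hP2] at e2
  rw [← hP1, ← hP2]
  have e4 : P1 + v₂ * P2 = (P1 + e1 * P2) + (v₂ - e1) * P2 := by ring
  rw [e4]
  refine (abs_add_le _ _).trans ?_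
  rw [abs_mul]
  refine (add_le_add k1 (mul_le_mul k3 e2 (abs_nonneg _) (by positivity))).trans ?_
  have f1 : (2 : ℝ) ^ C₁ * (2 ^ (a + lam₁) / 2 ^ gN 3) ≤ 2 ^ (a + L₁) / 2 ^ gN 3 / 2 := by
    rw [← mul_div_assoc, ← pow_add, div_div, div_le_div_iff₀ (by positivity) (by positivity)]
    have : (2 : ℝ) ^ (C₁ + (a + lam₁)) * (2 ^ gN 3 * 2) = 2 ^ (C₁ + (a + lam₁) + gN 3 + 1) := by
      rw [pow_succ, pow_add _ _ (gN 3)]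
      ring
    rw [this, ← pow_add]
    refine pw ?_
    have := le_max_left (lam₁ + (C₂ + C₁)) (L₂ + z + g 1 - gN 2)
    omega
  have f2 : (2 : ℝ) ^ (z + g 1) / 2 ^ gN 2 * (2 ^ (a + L₂) / 2 ^ gN 3) ≤
      2 ^ (a + L₁) / 2 ^ gN 3 / 2 := by
    rw [div_mul_div_comm, div_div, div_le_div_iff₀ (by positivity) (by positivity)]
    have e5 : (2 : ℝ) ^ (z + g 1) * 2 ^ (a + L₂) * (2 ^ gN 3 * 2) =
        2 ^ (z + g 1 + (a + L₂) + gN 3 + 1) := by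
      rw [pow_succ, pow_add _ _ (gN 3), pow_add _ (z + g 1)]
      ring
    rw [e5, ← pow_add, ← pow_add]
    refine pw ?_
    have := le_max_right (lam₁ + (C₂ + C₁)) (L₂ + z + g 1 - gN 2)
    omega
  linarith

end Pool.NVX
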