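import Pool.Agent.H80.NTT.Pre

/-!
# The facts on the event, for the assembly of `nv_t3`: the theorem

`nt_pre`.
-/

set_option autoImplicit false

namespace Pool.NVX

open Finset Real MvPolynomial
open Pool.Agent.H49.Ent Pool.Agent.H32.Dense Pool.STK Pool.KA Pool.KSAT Pool.K2S Pool.PB Pool.S6C
open Pool.GEN Pool.CHT
open Pool.D2R (dd hs dd_add dd_smul dd_congr)
open Pool.F5 (lp gp der_lp dd_gp deg_gp deg_lp eo bdS bdS_slam eval_lp eval_gp)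
open Pool.SHR (dir mvp RelvH Shr ShrY relvF_low lab_near slp_cmp)
open Pool.PB.Trl (rt rt_mem t_rt)
open Pool.FLF (Fam.sub)
open Pool.Z3 (jn jn_lt jn_self nbx_jn join_top)
open Pool.ISO (cwn cwn_slam chOK_win)

variable {m J : ℕ}

/-- The box estimate of another label. -/
theorem nt_bx (D : ℕ) : ∃ C : ℕ, ∀ {m J : ℕ} {F : Fam m J} {c : ℕ → Fin m}
    {a n k s L₁ L₂ r : ℕ} {g gN : ℕ → ℕ}
    {T N : PtT F → ℕ → MvPolynomial (Option (Fin m)) ℝ} {R : MvPolynomial (Option (Fin m)) ℝ}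
    {v : PtT F → Fin m → ℝ} {ω : F.Ω} {α₁ α₂ : ℝ} {b : Option (Fin m) → ℝ},
    Set.InjOn c (Set.Iio 3) → (∀ y l, (T y l).totalDegree ≤ D) → (∀ y l, DepC c l (T y l)) →
    (∀ y l, (N y l).totalDegree ≤ D) → (∀ y l, DepC c l (N y l)) → R.totalDegree ≤ D →
    DepC c 3 R → v (ptr F J ω) (c 0) = 0 → v (ptr F J ω) (c 1) = 1 →
    Shr F c 1 a g T v s 2 ω → NBx c (T (ptr F J ω)) g a (F.t ω) 3 b →
    (∀ b, NBx c (T (ptr F J ω)) g a (F.t ω) 3 b →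
      |eval b (N (ptr F J ω) 3) - eval b R| ≤ 2 ^ k / 2 ^ gN 3) →
    |eval b (dir (v (ptr F J ω)) (N (ptr F J ω) 3)) - α₁| ≤ 2 ^ n *
      (2 ^ g 1 / 2 ^ r + 2 ^ L₁ / 2 ^ gN 3 + 2 ^ g 1 / 2 ^ g 2 * (2 ^ L₂ / 2 ^ gN 3)) →
    |eval b (dir (ek (c 2)) (N (ptr F J ω) 3)) - α₂| ≤ 2 ^ n *
      (2 ^ g 2 / 2 ^ r + 2 ^ L₂ / 2 ^ gN 3) → gN 3 ≤ r + k →
    |eval b (dir (v (ptr F J ω)) R) - α₁| ≤ 2 ^ (C * (n + k + s + 1)) *
      (2 ^ g 1 / 2 ^ gN 3 + 2 ^ L₁ / 2 ^ gN 3 + 2 ^ g 1 / 2 ^ g 2 * (2 ^ L₂ / 2 ^ gN 3)) ∧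
    |eval b (dir (ek (c 2)) R) - α₂| ≤ 2 ^ (C * (n + k + s + 1)) *
      (2 ^ g 2 / 2 ^ gN 3 + 2 ^ L₂ / 2 ^ gN 3) := by
  obtain ⟨cK, hcmp⟩ := slp_cmp D 4
  refine ⟨cK + 2, ?_⟩
  intro m J F c a n k s L₁ L₂ r g gN T N R v ω α₁ α₂ b hc hTd hTp hNd hNp hRd hRp hv0 hv1 hS hb hk
    h1 h2 hr
  have pw : ∀ {x y : ℕ}, x ≤ y → (2 : ℝ) ^ x ≤ 2 ^ y := fun h => pow_le_pow_right₀ (by norm_num) h
  obtain ⟨T₀, hT₀⟩ : ∃ T, T = n + k + s + 1 := ⟨_, rfl⟩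
  have hT1 : 1 ≤ T₀ := by omega
  rw [← hT₀]
  have h02 := c_ne hc (i := 0) (j := 2) (by norm_num) (by norm_num) (by norm_num)
  have h12 := c_ne hc (i := 1) (j := 2) (by norm_num) (by norm_num) (by norm_num)
  have hQp : DepC c 3 (N (ptr F J ω) 3 - R) := fun b b' hn hb => by
    rw [map_sub, map_sub, hNp _ 3 b b' hn hb, hRp b b' hn hb]
  have hQd : (N (ptr F J ω) 3 - R).totalDegree ≤ D :=
    (totalDegree_sub _ _).trans (max_le (hNd _ 3) hRd)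
  have k1 := hcmp (c := c) (l := 1) (i := 3) (a := a) (k := k) (y := s) (p := gN 3) (g := g)
    (G := T) (v := v) (P := N (ptr F J ω) 3 - R) (ω := ω) (b := b) (by norm_num) hc hTd hTp hQp
    hQd hv1 (fun j hj => by
      have : j = 0 := by omega
      subst this
      exact hv0) (fun j hj hlj => by
      have : j = 2 := by omega
      subst this
      exact hS) hb (fun b hb => by
      rw [map_sub]
      exact hk b hb)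
  have k2 := hcmp (c := c) (l := 2) (i := 3) (a := a) (k := k) (y := 0) (p := gN 3) (g := g)
    (G := T) (v := fun _ => ek (c 2)) (P := N (ptr F J ω) 3 - R) (ω := ω) (b := b) (by norm_num)
    hc hTd hTp hQp hQd (ek_self _) (fun j hj => by
      have : j = 0 ∨ j = 1 := by omega
      rcases this with rfl | rfl
      · exact ek_ne h02
      · exact ek_ne h12) (fun j hj hlj => by omega) hb (fun b hb => by
      rw [map_sub]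
      exact hk b hb)
  have m1 : cK * (k + s + 1) ≤ cK * T₀ := Nat.mul_le_mul_left _ (by omega)
  have m2 : cK * (k + 0 + 1) ≤ cK * T₀ := Nat.mul_le_mul_left _ (by omega)
  have m3 : (cK + 2) * T₀ = cK * T₀ + 2 * T₀ := by ring
  -- the unit of the label
  have hru : ∀ x : ℕ, 2 ^ n * ((2 : ℝ) ^ x / 2 ^ r) ≤ 2 ^ (n + k) * (2 ^ x / 2 ^ gN 3) := by
    intro x
    rw [← mul_div_assoc, ← mul_div_assoc, div_le_div_iff₀ (by positivity) (by positivity),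
      ← pow_add, ← pow_add, ← pow_add, ← pow_add]
    exact pw (by omega)
  rw [dir_dd, dd_sub_left, ← dir_dd, ← dir_dd] at k1 k2
  constructor
  · obtain ⟨U, hU⟩ : ∃ U : ℝ, U = 2 ^ g 1 / 2 ^ gN 3 := ⟨_, rfl⟩
    obtain ⟨V, hV⟩ : ∃ V : ℝ, V = 2 ^ L₁ / 2 ^ gN 3 + 2 ^ g 1 / 2 ^ g 2 * (2 ^ L₂ / 2 ^ gN 3) :=
      ⟨_, rfl⟩
    have hU0 : 0 ≤ U := by rw [hU]; positivity
    have hV0 : 0 ≤ V := by rw [hV]; positivity
    have e1 : eval b (dir (v (ptr F J ω)) R) - α₁ =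
        (eval b (dir (v (ptr F J ω)) (N (ptr F J ω) 3)) - α₁) -
        (eval b (dir (v (ptr F J ω)) (N (ptr F J ω) 3)) - eval b (dir (v (ptr F J ω)) R)) := by
      ring
    rw [e1]
    refine (abs_sub _ _).trans ((add_le_add h1 k1).trans ?_)
    have e2 : (2 : ℝ) ^ g 1 / 2 ^ gN 3 + 2 ^ L₁ / 2 ^ gN 3 + 2 ^ g 1 / 2 ^ g 2 *
        (2 ^ L₂ / 2 ^ gN 3) = U + V := by rw [hU, hV]; ring
    have e3 : 2 ^ n * ((2 : ℝ) ^ g 1 / 2 ^ r + 2 ^ L₁ / 2 ^ gN 3 + 2 ^ g 1 / 2 ^ g 2 *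
        (2 ^ L₂ / 2 ^ gN 3)) = 2 ^ n * ((2 : ℝ) ^ g 1 / 2 ^ r) + 2 ^ n * V := by rw [hV]; ring
    have e4 : (2 : ℝ) ^ (cK * (k + s + 1)) * 2 ^ g 1 / 2 ^ gN 3 = 2 ^ (cK * (k + s + 1)) * U := by
      rw [hU]; ring
    rw [e2, e3, e4]
    have f1 := hru (g 1)
    rw [← hU] at f1
    have f2 : (2 : ℝ) ^ (n + k) * U ≤ 2 ^ (cK * T₀ + T₀) * U :=
      mul_le_mul_of_nonneg_right (pw (by omega)) hU0
    have f3 : (2 : ℝ) ^ n * V ≤ 2 ^ (cK * T₀ + 2 * T₀) * V :=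
      mul_le_mul_of_nonneg_right (pw (by omega)) hV0
    have f4 : (2 : ℝ) ^ (cK * (k + s + 1)) * U ≤ 2 ^ (cK * T₀ + T₀) * U :=
      mul_le_mul_of_nonneg_right (pw (by omega)) hU0
    have f5 : (2 : ℝ) ^ (cK * T₀ + T₀) * U + 2 ^ (cK * T₀ + T₀) * U ≤
        2 ^ (cK * T₀ + 2 * T₀) * U := by
      have e5 : (2 : ℝ) ^ (cK * T₀ + T₀) * U + 2 ^ (cK * T₀ + T₀) * U =
        2 ^ (cK * T₀ + T₀ + 1) * U := by rw [pow_succ]; ring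
      rw [e5]
      exact mul_le_mul_of_nonneg_right (pw (by omega)) hU0
    rw [m3, mul_add ((2 : ℝ) ^ (cK * T₀ + 2 * T₀)) U V]
    linarith
  · obtain ⟨U, hU⟩ : ∃ U : ℝ, U = 2 ^ g 2 / 2 ^ gN 3 := ⟨_, rfl⟩
    obtain ⟨V, hV⟩ : ∃ V : ℝ, V = 2 ^ L₂ / 2 ^ gN 3 := ⟨_, rfl⟩
    have hU0 : 0 ≤ U := by rw [hU]; positivity
    have hV0 : 0 ≤ V := by rw [hV]; positivity
    have e1 : eval b (dir (ek (c 2)) R) - α₂ =
        (eval b (dir (ek (c 2)) (N (ptr F J ω) 3)) - α₂) -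
        (eval b (dir (ek (c 2)) (N (ptr F J ω) 3)) - eval b (dir (ek (c 2)) R)) := by
      ring
    rw [e1]
    refine (abs_sub _ _).trans ((add_le_add h2 k2).trans ?_)
    have e4 : (2 : ℝ) ^ (cK * (k + 0 + 1)) * 2 ^ g 2 / 2 ^ gN 3 = 2 ^ (cK * (k + 0 + 1)) * U := by
      rw [hU]; ring
    rw [e4, mul_add ((2 : ℝ) ^ n) _ _, ← hV, ← hU]
    have f1 := hru (g 2)
    rw [← hU] at f1
    have f2 : (2 : ℝ) ^ (n + k) * U ≤ 2 ^ (cK * T₀ + T₀) * U :=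
      mul_le_mul_of_nonneg_right (pw (by omega)) hU0
    have f3 : (2 : ℝ) ^ n * V ≤ 2 ^ (cK * T₀ + 2 * T₀) * V :=
      mul_le_mul_of_nonneg_right (pw (by omega)) hV0
    have f4 : (2 : ℝ) ^ (cK * (k + 0 + 1)) * U ≤ 2 ^ (cK * T₀ + T₀) * U :=
      mul_le_mul_of_nonneg_right (pw (by omega)) hU0
    have f5 : (2 : ℝ) ^ (cK * T₀ + T₀) * U + 2 ^ (cK * T₀ + T₀) * U ≤
        2 ^ (cK * T₀ + 2 * T₀) * U := by
      have e5 : (2 : ℝ) ^ (cK * T₀ + T₀) * U + 2 ^ (cK * T₀ + T₀) * U =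
        2 ^ (cK * T₀ + T₀ + 1) * U := by rw [pow_succ]; ring
      rw [e5]
      exact mul_le_mul_of_nonneg_right (pw (by omega)) hU0
    rw [m3, mul_add ((2 : ℝ) ^ (cK * T₀ + 2 * T₀)) U V]
    linarith

end Pool.NVX
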