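import Pool.Agent.H80.NTT.Pre2

/-!
# The facts on the event, for the assembly of `nv_t3`: the theorem

`nt_pre`.
-/

set_option autoImplicit false

namespace Pool.NVX

open Finset Real MvPolynomial
open Pool.Agent.H49.Ent Pool.Agent.H32.Dense Pool.STK Pool.KA Pool.KSAT Pool.K2S Pool.PB Pool.S6C
open Pool.GEN Pool.CHT
open Pool.D2R (dd hs dd_add dd_smul dd_congr)
open Pool.F5 (lp gp der_lp dd_gp deg_gp deg_lp eo bdS bdS_slam eval_lp eval_gp)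
open Pool.SHR (dir mvp RelvH Shr ShrY relvF_low lab_near slp_cmp)
open Pool.PB.Trl (rt rt_mem t_rt)
open Pool.FLF (Fam.sub)
open Pool.Z3 (jn jn_lt jn_self nbx_jn join_top)
open Pool.ISO (cwn cwn_slam chOK_win)

variable {m J : ℕ}

/-- **The facts on the event.** -/
theorem nt_pre (m D : ℕ) (hD : 1 ≤ D) : ∃ (C cW : ℕ) (C₁ : ℝ), 1 ≤ C₁ ∧
    ∀ {J : ℕ} {F : Fam m J} {c : ℕ → Fin m} {a w w₂ e E h s lam₁ lam₂ L₁ L₂ D₂ : ℕ}
    {gN g Y : ℕ → ℕ} {κ θ : ℝ} {B₀ B : F.Ω → Prop}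
    {N T : PtT F → ℕ → MvPolynomial (Option (Fin m)) ℝ}
    {NH TH : LnT F → ℕ → MvPolynomial (Option (Fin m)) ℝ} {v : PtT F → Fin m → ℝ},
    Set.InjOn c (Set.Iio 4) → w ≤ w₂ → w₂ ≤ a → a + 1 ≤ J → 2 * D ≤ D₂ →
    0 < Pe F.p B → Sub B B₀ → ChOK F c 4 (fun _ => D) a w E gN B N NH →
    ChOK F c 3 (fun _ => D) a w₂ e g B₀ T TH → RelvH F c 3 a w₂ g Y D₂ h κ B₀ T →
    0 ≤ κ → κ * 2 ^ C * Pe F.p B₀ ≤ Pe F.p B →
    (∀ (B' : F.Ω → Prop) (hB' : 0 < Pe F.p B'), Sub B' B → Pe F.p B ≤ 2 ^ C * Pe F.p B' →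
      (Fam.sub F B' hB').Tm θ) → 0 ≤ θ → C₁ * (θ + 1) ≤ ((J : ℝ) - a) * Real.log 2 →
    C₁ * (θ + 1) ≤ s → h ≤ s → (∀ l < 3, gN l ≤ g l + s) → (∀ j < 3, Y j ≤ J) →
    (∀ l < 4, e + E + gN l + C * (s + 1) ≤ J) → (∀ l < 3, e + E + g l + C * (s + 1) ≤ J) →
    C * (s + 1) ≤ gN 3 → (∀ ω, B ω → v (ptr F J ω) (c 0) = 0 ∧ v (ptr F J ω) (c 1) = 1) →
    (∀ ω, B ω → ShrY F c a (g 1) g T v s 2 ω) →
    (∀ ω, B ω → ∀ t : ℝ, F.t ω - rt F w ω / 2 ^ w ≤ t → t ≤ F.t ω + (1 - rt F w ω) / 2 ^ w →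
      |(hcl (c 2) (NH (slam F w ω) 3) (slam F w ω)).eval t| ≤ 2 ^ (a + lam₂) / 2 ^ gN 3) →
    (∀ ω, B ω → ∃ t : ℝ, F.t ω - rt F w ω / 2 ^ w ≤ t ∧ t ≤ F.t ω + (1 - rt F w ω) / 2 ^ w ∧
      2 ^ (a + lam₂) / 2 ^ gN 3 / 2 ^ s ≤
        |(hcl (c 2) (NH (slam F w ω) 3) (slam F w ω)).eval t|) →
    (∀ ω, B ω → ∀ t : ℝ, F.t ω - rt F w ω / 2 ^ w ≤ t → t ≤ F.t ω + (1 - rt F w ω) / 2 ^ w →
      |(hcv (c 1) (c 2) (NH (slam F w ω) 2) (NH (slam F w ω) 3) (slam F w ω)).eval t| ≤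
        2 ^ (a + lam₁) / 2 ^ gN 3) → gN 2 ≤ lam₂ → L₂ = lam₂ + cW →
    L₁ = max (lam₁ + cW) (L₂ + C * (s + 1) + g 1 - gN 2) + 1 →
    ∃ (B' : F.Ω → Prop) (al₁ al₂ : PtT F → ℝ), Sub B' B ∧ Pe F.p B / 2 ^ C ≤ Pe F.p B' ∧
      Nt3 F c a w L₁ L₂ (C * (s + 1)) g gN B' T N NH v al₁ al₂ := by
  obtain ⟨cL, hnear⟩ := lab_near D 3 hD
  obtain ⟨cP, rP, hrP, hpth3⟩ := pth_fam m D 3
  obtain ⟨rR, hrR, hlow⟩ := low_rem m D
  obtain ⟨cJ, hjoin⟩ := join_top D 3 hD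
  obtain ⟨cB, hbox⟩ := box_uv D hD
  obtain ⟨cA, hag⟩ := nagr D
  obtain ⟨cM, hder⟩ := der_shr D hD
  obtain ⟨cS, hslope⟩ := nt_slope D
  obtain ⟨cX, hbx⟩ := nt_bx D
  obtain ⟨cW, hsize⟩ := nt_size D
  have pw : ∀ {x y : ℕ}, x ≤ y → (2 : ℝ) ^ x ≤ 2 ^ y := fun h => pow_le_pow_right₀ (by norm_num) h
  obtain ⟨K₁, hK₁⟩ : ∃ K, K = cB * (cP + 3) + cA * (cL + 1) + cJ + 1 := ⟨_, rfl⟩
  obtain ⟨K₂, hK₂⟩ : ∃ K, K = cP + cL + cA * (cL + 1) + cM + 4 := ⟨_, rfl⟩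
  obtain ⟨C, hC⟩ : ∃ C, C = cX * K₁ + cS * K₂ + cB * (cP + 3) + cA * (cL + 1) + 4 * cJ + cL +
      cM + cP + cB + cW + 20 := ⟨_, rfl⟩
  refine ⟨C, cW, rP + rR, by linarith, ?_⟩
  intro J F c a w w₂ e E h s lam₁ lam₂ L₁ L₂ D₂ gN g Y κ θ B₀ B N T NH TH v hc hw hw2a haJ1 hDD
    hPB hB hN hT hRH hκ0 hκP hTm hθ hθJ hθs hhs hgx hYJ hrN hrg hgN3 hv01 hshr hup2 hlo2 hup1 hg2
    hL₂ hL₁
  have haJ : a ≤ J := by omega
  have hw2J : w₂ ≤ J := hw2a.trans haJ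
  have hwJ : w ≤ J := hw.trans hw2J
  have hwa : w ≤ a := hw.trans hw2a
  obtain ⟨T₀, hT₀⟩ : ∃ T₀, T₀ = s + 1 := ⟨_, rfl⟩
  have hT1 : 1 ≤ T₀ := by omega
  rw [← hT₀] at hrN hrg hgN3 hL₁ ⊢
  have hCT : C * T₀ = cX * K₁ * T₀ + cS * K₂ * T₀ + cB * (cP + 3) * T₀ + cA * (cL + 1) * T₀ +
      4 * (cJ * T₀) + cL * T₀ + cM * T₀ + cP * T₀ + cB * T₀ + cW * T₀ + 20 * T₀ := by
    rw [hC]
    ring
  have hT0s : s ≤ T₀ := by omega
  have mT : ∀ x : ℕ, x ≤ x * T₀ := fun x => Nat.le_mul_of_pos_right _ hT1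
  have hcc3 : Set.InjOn c (Set.Iio 3) := hc.mono (Set.Iio_subset_Iio (by norm_num))
  have hcc2 : Set.InjOn c (Set.Iio 2) := hc.mono (Set.Iio_subset_Iio (by norm_num))
  -- the shares
  have h2C : (0 : ℝ) < 2 ^ C := by positivity
  have shr : ∀ (k : ℕ) (B' : F.Ω → Prop), k ≤ C → Pe F.p B / 2 ^ k ≤ Pe F.p B' →
      0 < Pe F.p B' ∧ Pe F.p B ≤ 2 ^ C * Pe F.p B' := by
    intro k B' hk h1
    have h2 : (0 : ℝ) < 2 ^ k := by positivity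
    refine ⟨(div_pos hPB h2).trans_le h1, ?_⟩
    rw [div_le_iff₀ h2] at h1
    calc Pe F.p B ≤ Pe F.p B' * 2 ^ k := h1
      _ ≤ Pe F.p B' * 2 ^ C := mul_le_mul_of_nonneg_left (pw hk) (Pe_nonneg F.isLaw B')
      _ = _ := mul_comm _ _
  have shj : ∀ (k j : ℕ) (B' : F.Ω → Prop), k + j ≤ C → Pe F.p B / 2 ^ k ≤ Pe F.p B' →
      κ * 2 ^ j * Pe F.p B₀ ≤ Pe F.p B' := by
    intro k j B' hk h1
    refine le_trans ?_ h1
    rw [le_div_iff₀ (by positivity)]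
    refine le_trans ?_ hκP
    have e1 : κ * 2 ^ j * Pe F.p B₀ * 2 ^ k = κ * 2 ^ (k + j) * Pe F.p B₀ := by
      rw [pow_add]
      ring
    rw [e1]
    exact mul_le_mul_of_nonneg_right (mul_le_mul_of_nonneg_left (pw hk) hκ0)
      (Pe_nonneg F.isLaw B₀)
  have hfr : ∀ (k j : ℕ) (A A' : F.Ω → Prop), Pe F.p B / 2 ^ k ≤ Pe F.p A →
      Pe F.p A / 2 ^ j ≤ Pe F.p A' → Pe F.p B / 2 ^ (k + j) ≤ Pe F.p A' := by
    intro k j A A' h1 h2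
    refine le_trans ?_ h2
    rw [pow_add, ← div_div]
    exact div_le_div_of_nonneg_right h1 (by positivity)
  have half : ∀ (k : ℕ) (A A' : F.Ω → Prop), Pe F.p B / 2 ^ k ≤ Pe F.p A →
      Pe F.p A / 2 ≤ Pe F.p A' → Pe F.p B / 2 ^ (k + 1) ≤ Pe F.p A' := by
    intro k A A' h1 h2
    exact hfr k 1 A A' h1 (by rwa [pow_one])
  have hr0 : 0 ≤ θ + 1 := by linarith
  have hrP' : rP * (θ + 1) ≤ (rP + rR) * (θ + 1) := mul_le_mul_of_nonneg_right (by linarith) hr0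
  have hrR' : rR * (θ + 1) ≤ (rP + rR) * (θ + 1) := mul_le_mul_of_nonneg_right (by linarith) hr0
  have hlog : 0 ≤ Real.log 2 := Real.log_nonneg (by norm_num)
  have hJw : ((J : ℝ) - a) * Real.log 2 ≤ ((J : ℝ) - w) * Real.log 2 := by
    refine mul_le_mul_of_nonneg_right ?_ hlog
    have : (w : ℝ) ≤ a := by exact_mod_cast hwa
    linarith
  -- the near labels
  have hRF : RelvF F c 3 a w₂ g D h κ B₀ T := hRH.relv.mono (by omega) le_rfl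
  have hN2 : ChOK F c 4 (fun _ => D) a w₂ (e + E) gN B N (cwn w w₂ NH) :=
    chOK_win (hN.mono le_rfl (fun _ => le_rfl) le_rfl (Nat.le_add_left _ _)) hw hw2J
  obtain ⟨B₁, b1, p1, hnr⟩ := hnear (n := 3) (κ' := κ * 2 ^ 4) le_rfl hcc3 hRF hT.depG hB
    (shj 0 4 B (by omega) (by rw [pow_zero, div_one])) (le_of_eq (by norm_num))
    (hN2.mono (by norm_num) (fun _ => le_rfl) le_rfl le_rfl)
  -- the paths
  have s1 := shr 3 B₁ (by omega) p1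
  have mg := hrg
  obtain ⟨B₂, b2, p2, hP3⟩ := hpth3 (x := s) (a := a) (e := e) (g := g) s1.1 hcc3 haJ
    ((chOK_win hT hw2a haJ).sub fun ω h => hB ω (b1 ω h)) (fun l hl => by
      have := hrg l hl
      rw [← hT₀]
      omega) (hTm B₁ s1.1 b1 s1.2) hθ (hrP'.trans hθJ) (hrP'.trans hθs)
  rw [← hT₀] at hP3
  have q2 := half 3 B₁ B₂ p1 p2
  have sb2 : Sub B₂ B := fun ω h => b1 ω (b2 ω h)
  have s2 := shr 4 B₂ (by omega) q2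
  -- the size at the sample
  obtain ⟨B₃, b3, p3, hlo⟩ := hlow s2.1 (fun s' => hcl (c 2) (NH s' 3) s')
    (fun _ => 2 ^ (a + lam₂) / 2 ^ gN 3 / 2 ^ s) hwJ (fun s' => hcl_deg (c 2) (hN.degH s' 3) s')
    (hTm B₂ s2.1 sb2 s2.2) hθ ((hrR'.trans hθJ).trans hJw) (hrR'.trans hθs)
    (fun ω hω => ⟨by positivity, hlo2 ω (sb2 ω hω)⟩)
  have q3 := half 4 B₂ B₃ q2 p3
  have sb3 : Sub B₃ B := fun ω h => sb2 ω (b3 ω h)
  have s3 := shr 5 B₃ (by omega) q3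
  -- the joined chart
  have hRFj : RelvF F c 3 a w₂ g D h (1 / 2 ^ (C - 5)) B₃ T :=
    hRF.sub (fun ω h => hB ω (sb3 ω h)) (κ₁ := κ * 2 ^ (C - 5))
      (shj 5 (C - 5) B₃ (by omega) q3) (by positivity) (le_of_eq (by field_simp))
  have hκ4 : (1 : ℝ) / 2 ^ (C - 5) * 2 ^ 3 ≤ 1 := by
    rw [div_mul_eq_mul_div, one_mul, div_le_one (by positivity)]
    exact pw (by omega)
  obtain ⟨g', hg'⟩ : ∃ g' : ℕ → ℕ, g' = fun _ => gN 3 - cJ * (h + 1) := ⟨_, rfl⟩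
  have hcJh : cJ * (h + 1) ≤ cJ * T₀ := Nat.mul_le_mul_left _ (by omega)
  have hcJN : cJ * (h + 1) ≤ gN 3 := by omega
  have hg'3 : g' 3 + cJ * (h + 1) = gN 3 := by rw [hg']; exact Nat.sub_add_cancel hcJN
  obtain ⟨B₄, b4, p4, -, hJ1⟩ := hjoin (e := e) (E := e + E) (x := s) (g' := g') hc hRFj hκ4
    (hT.sub fun ω h => hB ω (sb3 ω h)) (hN2.sub sb3) hgx (Nat.le_add_right _ _) (by omega)
    (by omega)
  have q4 := hfr 5 3 B₃ B₄ q3 p4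
  have sb4 : Sub B₄ B := fun ω h => sb3 ω (b4 ω h)
  obtain ⟨e₁, he₁⟩ : ∃ e₁, e₁ = e + E + 2 * cJ * (h + 1) + s := ⟨_, rfl⟩
  rw [← he₁] at hJ1
  obtain ⟨gJ, hgJ⟩ : ∃ gJ, gJ = jn 3 g g' := ⟨_, rfl⟩
  obtain ⟨GJ, hGJ⟩ : ∃ GJ : PtT F → ℕ → MvPolynomial (Option (Fin m)) ℝ,
      GJ = fun y => jn 3 (T y) (N y) := ⟨_, rfl⟩
  obtain ⟨HJ, hHJ⟩ : ∃ HJ : LnT F → ℕ → MvPolynomial (Option (Fin m)) ℝ,
      HJ = fun s => jn 3 (TH s) (cwn w w₂ NH s) := ⟨_, rfl⟩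
  rw [← hgJ, ← hGJ, ← hHJ] at hJ1
  have gl : ∀ l < 3, gJ l = g l := fun l hl => by rw [hgJ]; exact jn_lt hl
  have g3 : gJ 3 = g' 3 := by rw [hgJ]; exact jn_self
  have Gl : ∀ y, ∀ l < 3, GJ y l = T y l := fun y l hl => by rw [hGJ]; exact jn_lt hl
  have G3 : ∀ y, GJ y 3 = N y 3 := fun y => by rw [hGJ]; exact jn_self
  have H3 : ∀ ω, HJ (slam F w₂ ω) 3 = NH (slam F w ω) 3 := fun ω => by
    rw [hHJ]
    show jn 3 (TH (slam F w₂ ω)) (cwn w w₂ NH (slam F w₂ ω)) 3 = _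
    rw [jn_self, cwn_slam hw hw2J]
  have nbJ : ∀ (y : PtT F) (t : ℝ) (i : ℕ) (b : Option (Fin m) → ℝ), i ≤ 3 →
      (NBx c (GJ y) gJ a t i b ↔ NBx c (T y) g a t i b) := by
    intro y t i b hi
    rw [hgJ, hGJ]
    exact nbx_jn hi
  have hRJ : RelvH F c 3 a w₂ gJ Y (2 * D) h κ B₀ GJ := by
    rw [hgJ, hGJ]
    exact relvH_jn (relvH_mono hRH hDD le_rfl)
  have hshJ : ∀ ω, B ω → Shr F c 1 a gJ GJ v s 2 ω := by
    intro ω hω b hb sv hsv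
    have h1 := hshr ω hω b ((nbJ _ _ 2 b (by norm_num)).1 hb) sv (by
      rwa [gl 1 (by norm_num)] at hsv)
    rw [Gl _ 2 (by norm_num), gl 2 (by norm_num)]
    exact h1
  have hPJ : Pth F c 3 a (cP * T₀) gJ B₄ GJ := by
    intro ω ν h1 h2 h3 s' h4 h5 l hl
    rw [Gl _ l hl, gl l hl]
    exact hP3 ω ν (b3 ω (b4 ω h1)) (b3 ν (b4 ν h2)) h3 s' h4 h5 l hl
  -- the small numbers
  have a1 : 2 * cJ * (h + 1) ≤ 2 * (cJ * T₀) := by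
    rw [Nat.mul_assoc]
    exact Nat.mul_le_mul_left _ hcJh
  have mB := mT cB
  have mM := mT cM
  have mW := mT cW
  have m9 := mT 9
  have i1 : cL * (h + 1) ≤ cL * T₀ := Nat.mul_le_mul_left _ (by omega)
  obtain ⟨kA, hkA⟩ : ∃ k, k = cA * (cL * (h + 1) + s + 1) := ⟨_, rfl⟩
  have i2 : kA ≤ cA * (cL + 1) * T₀ := by
    rw [hkA, Nat.mul_assoc]
    refine Nat.mul_le_mul_left _ ?_
    rw [Nat.add_mul]
    omega
  obtain ⟨kB, hkB⟩ : ∃ k, k = cB * (cP * T₀ + h + s + 1) := ⟨_, rfl⟩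
  have i3 : kB ≤ cB * (cP + 3) * T₀ := by
    rw [hkB, Nat.mul_assoc]
    refine Nat.mul_le_mul_left _ ?_
    rw [Nat.add_mul]
    omega
  obtain ⟨kX, hkX⟩ : ∃ k, k = cX * (kB + (kA + cJ * (h + 1)) + s + 1) := ⟨_, rfl⟩
  have i4 : kX ≤ cX * K₁ * T₀ := by
    rw [hkX, Nat.mul_assoc]
    refine Nat.mul_le_mul_left _ ?_
    have e1 : K₁ * T₀ = cB * (cP + 3) * T₀ + cA * (cL + 1) * T₀ + cJ * T₀ + T₀ := by
      rw [hK₁]; ring
    rw [e1]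
    omega
  obtain ⟨kS, hkS⟩ : ∃ k, k = cS * (cP * T₀ + (cL * (h + 1) + kA + cM + s + s + 1) + 1) :=
    ⟨_, rfl⟩
  have i5 : kS ≤ cS * K₂ * T₀ := by
    rw [hkS, Nat.mul_assoc]
    refine Nat.mul_le_mul_left _ ?_
    have e1 : K₂ * T₀ = cP * T₀ + cL * T₀ + cA * (cL + 1) * T₀ + cM * T₀ + 4 * T₀ := by
      rw [hK₂]; ring
    rw [e1]
    omega
  -- the agreement of the labels
  have hnr' : ∀ ω, B₁ ω → ∀ i < 3, ∀ b, NBx c (T (ptr F J ω)) g a (F.t ω) i b →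
      |eval b (T (ptr F J ω) i) - eval b (N (ptr F J ω) i)| ≤ 2 ^ (cL * (h + 1)) / 2 ^ gN i := hnr
  have hagr : ∀ ω, B₁ ω → ∀ i < 4, ∀ b, NBx c (T (ptr F J ω)) g a (F.t ω) i b →
      |eval b (N (ptr F J ω) i) - eval b (NH (slam F w ω) i)| ≤ 2 ^ kA / 2 ^ gN i := by
    intro ω hω i hi
    rw [hkA]
    exact hag hi (hc.mono (Set.Iio_subset_Iio hi.le)) hN hT.depG (b1 ω hω)
      (fun l hl => hgx l (by omega)) (fun l hl => hnr' ω hω l (by omega))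
  -- the slope of the label of `c 2`
  have hslT : ∀ ω, B ω → ∀ b, NBx c (T (ptr F J ω)) g a (F.t ω) 2 b →
      |eval b (pderiv (some (c 1)) (T (ptr F J ω) 2)) - v (ptr F J ω) (c 2)| ≤
        2 ^ (cM + s) * 2 ^ g 1 / 2 ^ g 2 := fun ω hω b hb => by
    have h1 := hder hT.degG (hv01 ω hω).2 (hshr ω hω) b hb
    rwa [dir_two hcc2 (hT.depG _ 2) (hv01 ω hω).1 (hv01 ω hω).2] at h1
  have hg2s := hgx 2 (by norm_num)
  have hsl : ∀ ω, B₂ ω → ∀ t : ℝ, |t - F.t ω| ≤ 1 / 2 ^ a →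
      |v (ptr F J ω) (c 2) - eval (bt F ω + (t - F.t ω) • bd F ω)
        (pderiv (some (c 1)) (NH (slam F w ω) 2))| ≤ 2 ^ (C * T₀ + g 1) / 2 ^ gN 2 := by
    intro ω hω t ht
    have h1 := hslope (k := cL * (h + 1) + kA + cM + s + s + 1) (p := gN 2)
      (P := NH (slam F w ω) 2) (v := v) hcc2 haJ1 hT.degG hT.depG
      (hP3.mono (by norm_num) le_rfl) hω (hN.depH _ 2) (hN.degH _ 2) (hv01 ω (sb2 ω hω)).1
      (hv01 ω (sb2 ω hω)).2 (fun b hb => by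
        have h2 := hnr' ω (b2 ω hω) 2 (by norm_num) b hb
        have h3 := hagr ω (b2 ω hω) 2 (by norm_num) b hb
        have e1 : eval b (T (ptr F J ω) 2) - eval b (NH (slam F w ω) 2) =
          (eval b (T (ptr F J ω) 2) - eval b (N (ptr F J ω) 2)) +
          (eval b (N (ptr F J ω) 2) - eval b (NH (slam F w ω) 2)) := by ring
        rw [e1]
        refine (abs_add_le _ _).trans ((add_le_add h2 h3).trans ?_)
        rw [← add_div]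
        refine div_le_div_of_nonneg_right ?_ (by positivity)
        have e2 : (2 : ℝ) ^ (cL * (h + 1) + kA + cM + s + s + 1) =
            2 ^ (cL * (h + 1) + kA + cM + s + s) + 2 ^ (cL * (h + 1) + kA + cM + s + s) := by
          rw [pow_succ]
          ring
        rw [e2]
        exact add_le_add (pw (by omega)) (pw (by omega))) (fun b hb => by
        refine (hslT ω (sb2 ω hω) b hb).trans ?_
        rw [← pow_add, div_le_div_iff₀ (by positivity) (by positivity), ← pow_add, ← pow_add]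
        exact pw (by omega)) t ht
    rw [← hkS] at h1
    refine h1.trans (div_le_div_of_nonneg_right (pw ?_) (by positivity))
    omega
  -- the sizes
  have hsz : ∀ ω, B₂ ω → ∀ t : ℝ, |t - F.t ω| ≤ 1 / 2 ^ a →
      |(hcl (c 2) (NH (slam F w ω) 3) (slam F w ω)).eval t| ≤ 2 ^ (a + L₂) / 2 ^ gN 3 ∧
      |(hcl (c 1) (NH (slam F w ω) 3) (slam F w ω)).eval t +
        v (ptr F J ω) (c 2) * (hcl (c 2) (NH (slam F w ω) 3) (slam F w ω)).eval t| ≤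
        2 ^ (a + L₁) / 2 ^ gN 3 := fun ω hω =>
    hsize hwa haJ1 hN.degH (hup2 ω (sb2 ω hω)) (hup1 ω (sb2 ω hω)) (hsl ω hω) hg2 hL₂ hL₁
  have hwin : ∀ (ω : F.Ω) (t : ℝ), F.t ω - rt F a ω / 2 ^ a ≤ t →
      t ≤ F.t ω + (1 - rt F a ω) / 2 ^ a → |t - F.t ω| ≤ 1 / 2 ^ a := by
    intro ω t t1 t2
    have hrt := rt_mem F a ω
    have h1 : rt F a ω / 2 ^ a ≤ 1 / 2 ^ a :=
      div_le_div_of_nonneg_right hrt.2 (by positivity)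
    have h2 : (1 - rt F a ω) / 2 ^ a ≤ 1 / 2 ^ a :=
      div_le_div_of_nonneg_right (by linarith [hrt.1]) (by positivity)
    rw [abs_le]
    constructor <;> linarith
  -- the box
  obtain ⟨V₁, hV₁⟩ : ∃ V₁ : ℝ, V₁ = 2 ^ L₁ / 2 ^ gN 3 := ⟨_, rfl⟩
  obtain ⟨V₂, hV₂⟩ : ∃ V₂ : ℝ, V₂ = 2 ^ L₂ / 2 ^ gN 3 := ⟨_, rfl⟩
  have hV10 : 0 ≤ V₁ := by rw [hV₁]; positivity
  have hV20 : 0 ≤ V₂ := by rw [hV₂]; positivity
  have hVe : ∀ x : ℕ, (2 : ℝ) ^ (a + x) / 2 ^ gN 3 = 2 ^ a * (2 ^ x / 2 ^ gN 3) := fun x => by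
    rw [pow_add]
    ring
  have sb42 : Sub B₄ B₂ := fun ω h => b3 ω (b4 ω h)
  obtain ⟨B₅, al₁, al₂, b5, p5, hal1, hal2⟩ := hbox (a := a) (w := w₂) (n := cP * T₀) (h := h)
    (y := s) (V₁ := V₁) (V₂ := V₂) (v := v) hc haJ1 hRJ (fun ω h => hB ω (sb4 ω h)) hκ0
    ((le_of_eq (by rw [pow_one])).trans (shj 8 1 B₄ (by omega) q4)) hJ1 hV10 hV20 hPJ
    (fun ω hω => hv01 ω (sb4 ω hω))
    (fun ω hω => hshJ ω (sb4 ω hω)) (fun ω hω t t1 t2 => by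
      have h1 := (hsz ω (sb42 ω hω) t (hwin ω t t1 t2)).2
      rw [hVe, ← hV₁, hcl_eval, hcl_eval] at h1
      rw [H3, hcl_eval, hcl_eval]
      exact h1) (fun ω hω t t1 t2 => by
      have h1 := (hsz ω (sb42 ω hω) t (hwin ω t t1 t2)).1
      rw [hVe, ← hV₂, hcl_eval] at h1
      rw [H3, hcl_eval]
      exact h1) hYJ (fun j hj => by
      have := hrg j hj
      rw [gl j hj, he₁]
      omega)
  rw [← hkB] at hal1 hal2
  have q5 := hfr 8 2 B₄ B₅ q4 (by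
    refine le_trans (le_of_eq ?_) p5
    norm_num)
  have sb5 : Sub B₅ B := fun ω h => sb4 ω (b5 ω h)
  have sb51 : Sub B₅ B₁ := fun ω h => b2 ω (sb42 ω (b5 ω h))
  have hfin : ∀ ω, B₅ ω → ∀ b, NBx c (T (ptr F J ω)) g a (F.t ω) 3 b →
      |eval b (dir (v (ptr F J ω)) (NH (slam F w ω) 3)) - al₁ (ptr F J ω)| ≤ 2 ^ kX *
        (2 ^ g 1 / 2 ^ gN 3 + 2 ^ L₁ / 2 ^ gN 3 + 2 ^ g 1 / 2 ^ g 2 * (2 ^ L₂ / 2 ^ gN 3)) ∧
      |eval b (dir (ek (c 2)) (NH (slam F w ω) 3)) - al₂ (ptr F J ω)| ≤ 2 ^ kX *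
        (2 ^ g 2 / 2 ^ gN 3 + 2 ^ L₂ / 2 ^ gN 3) := by
    intro ω hω b hb
    have h1 := hal1 ω hω b ((nbJ _ _ 3 b le_rfl).2 hb)
    have h2 := hal2 ω hω b ((nbJ _ _ 3 b le_rfl).2 hb)
    rw [G3, gl 1 (by norm_num), gl 2 (by norm_num), g3, hV₁, hV₂] at h1
    rw [G3, gl 2 (by norm_num), g3, hV₂] at h2
    have h3 := hbx (n := kB) (k := kA + cJ * (h + 1)) (s := s) (R := NH (slam F w ω) 3) (v := v)
      hcc3 hT.degG hT.depG hN.degG hN.depG (hN.degH _ 3) (hN.depH _ 3) (hv01 ω (sb5 ω hω)).1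
      (hv01 ω (sb5 ω hω)).2 (hshr ω (sb5 ω hω)) hb (fun b' hb' => by
        refine (hagr ω (sb51 ω hω) 3 (by norm_num) b' hb').trans ?_
        exact div_le_div_of_nonneg_right (pw (Nat.le_add_right _ _)) (by positivity)) h1 h2
      (by omega)
    rwa [← hkX] at h3
  refine ⟨B₅, al₁, al₂, sb5, ?_, ?_⟩
  · refine le_trans ?_ q5
    exact div_le_div_of_nonneg_left (Pe_nonneg F.isLaw _) (by positivity) (pw (by omega))
  · have up : ∀ {x : ℕ} {z : ℝ}, 0 ≤ z → x ≤ C * T₀ → (2 : ℝ) ^ x * z ≤ 2 ^ (C * T₀) * z :=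
      fun hz hx => mul_le_mul_of_nonneg_right (pw hx) hz
    refine ⟨fun ω hω i hi b hb => ?_, fun ω hω b hb => ?_, fun ω hω b hb => ?_,
      fun ω hω t ht => ((hsz ω (sb42 ω (b5 ω hω)) t ht)).2,
      fun ω hω t ht => ((hsz ω (sb42 ω (b5 ω hω)) t ht)).1, fun ω hω => ?_,
      fun ω hω b hb => ?_, fun ω hω b hb => ?_⟩
    · refine (hnr' ω (sb51 ω hω) i hi b hb).trans ?_
      exact div_le_div_of_nonneg_right (pw (by omega)) (by positivity)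
    · refine (hagr ω (sb51 ω hω) 3 (by norm_num) b hb).trans ?_
      exact div_le_div_of_nonneg_right (pw (by omega)) (by positivity)
    · refine (hslT ω (sb5 ω hω) b hb).trans ?_
      refine div_le_div_of_nonneg_right (mul_le_mul_of_nonneg_right (pw (by omega)) ?_) ?_ <;>
        positivity
    · refine le_trans ?_ (hlo ω (b4 ω (b5 ω hω)))
      rw [div_div, div_div, div_div, div_le_div_iff₀ (by positivity) (by positivity), ← pow_add,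
        ← pow_add, ← pow_add, ← pow_add, ← pow_add]
      exact pw (by omega)
    · exact (hfin ω hω b hb).1.trans (up (by positivity) (by omega))
    · exact (hfin ω hω b hb).2.trans (up (by positivity) (by omega))

end Pool.NVX
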